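import Mathlib

/-!
# Homomorphisms from the multiplicative group to the additive group
-/

namespace Pool.Agent.W437.TA

/-- An element of infinite order modulo a subgroup is detected by a homomorphism. -/
theorem exists_theta {F : Type} [Field F] [CharZero F] (P : Subgroup Fˣ) (a : Fˣ)
    (ha : ∀ m : ℕ, 0 < m → a ^ m ∉ P) :
    ∃ θ : Fˣ →* Multiplicative F, (∀ b ∈ P, θ b = 1) ∧ θ a ≠ 1 := by
  let f : ℤ →+ Additive (Fˣ ⧸ P) :=
    zmultiplesHom _ (Additive.ofMul (QuotientGroup.mk a : Fˣ ⧸ P))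
  have hf1 : ∀ z : ℤ, f z = Additive.ofMul (QuotientGroup.mk (a ^ z) : Fˣ ⧸ P) := fun z => rfl
  have hf : Function.Injective f := by
    rw [injective_iff_map_eq_zero]
    intro z hz
    rw [hf1] at hz
    have h1 : (QuotientGroup.mk (a ^ z) : Fˣ ⧸ P) = 1 := hz
    rw [QuotientGroup.eq_one_iff] at h1
    by_contra h0
    refine ha z.natAbs (Int.natAbs_pos.2 h0) ?_
    rcases Int.natAbs_eq z with h | h
    · rw [h, zpow_natCast] at h1
      exact h1
    · rw [h, zpow_neg, zpow_natCast] at h1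
      exact (Subgroup.inv_mem_iff P).1 h1
  obtain ⟨h, hh⟩ := Module.Baer.extension_property_addMonoidHom (M := ℤ)
    (N := Additive (Fˣ ⧸ P)) (Module.Baer.of_divisible F) f hf (Int.castAddHom F)
  refine ⟨(AddMonoidHom.toMultiplicativeRight h).comp (QuotientGroup.mk' P), fun b hb => ?_, ?_⟩
  · have h1 : QuotientGroup.mk' P b = 1 := (QuotientGroup.eq_one_iff b).2 hb
    rw [MonoidHom.comp_apply, h1, map_one]
  · intro h1
    have h2 : h (f 1) = 0 := by
      have h3 : f 1 = Additive.ofMul (QuotientGroup.mk a : Fˣ ⧸ P) := by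
        rw [hf1, zpow_one]
      rw [h3]
      exact h1
    have h3 := DFunLike.congr_fun hh 1
    rw [AddMonoidHom.comp_apply, h2] at h3
    simp at h3

end Pool.Agent.W437.TA
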