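import Mathlib
import Pool.Agent.W437.TA.Link

/-!
# Lie algebras which act as the full symplectic Lie algebra on two spaces, second part
-/

set_option linter.unusedSectionVars false

namespace Pool.Agent.W437.TA

open Module

variable {K : Type*} [Field K] [CharZero K] {S T M : Type*} [AddCommGroup S] [Module K S] [AddCommGroup T] [Module K T]
  [AddCommGroup M] [Module K M] [FiniteDimensional K S] [FiniteDimensional K T]
  {w : S →ₗ[K] S →ₗ[K] K} {v : T →ₗ[K] T →ₗ[K] K}
  {ρ : M →ₗ[K] Module.End K S} {τ : M →ₗ[K] Module.End K T} {br : M → M → M}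
  (hw : ∀ x, w x x = 0) (hn : ∀ x, (∀ y, w x y = 0) → x = 0)
  (hv : ∀ x, v x x = 0) (hm : ∀ x, (∀ y, v x y = 0) → x = 0)
  (hρ : ∀ X Y, ρ (br X Y) = ρ X * ρ Y - ρ Y * ρ X)
  (hτ : ∀ X Y, τ (br X Y) = τ X * τ Y - τ Y * τ X)
  (hsS : ∀ X, IsSp w (ρ X)) (hsT : ∀ X, IsSp v (τ X))
  (hfS : ∀ x y, ∃ X, ρ X = EE w x y) (hfT : ∀ x y, ∃ X, τ X = EE v x y)

include hw hn hρ hτ hsS hfS in
theorem indep_of_ker {X0 : M} (h0 : τ X0 = 0) (h1 : ρ X0 ≠ 0) (x y : S) :
    ∃ X, ρ X = EE w x y ∧ τ X = 0 := by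
  have h2 := ideal_full hw hn hρ hsS hfS ((LinearMap.ker τ).map ρ) ?_
    (Submodule.mem_map_of_mem (f := ρ) (p := LinearMap.ker τ) (r := X0) h0) (hsS X0) h1 x y
  · obtain ⟨X, hX, hX2⟩ := h2
    exact ⟨X, hX2, hX⟩
  · rintro X _ ⟨Y, hY, rfl⟩
    refine ⟨br X Y, ?_, hρ X Y⟩
    have hY' : τ Y = 0 := hY
    change τ (br X Y) = 0
    rw [hτ, hY', mul_zero, zero_mul, sub_zero]

include hv hm hsT in
theorem indep_swap (h : ∀ x y, ∃ X, τ X = EE v x y ∧ ρ X = 0) (X : M) :
    ∃ Y, ρ Y = ρ X ∧ τ Y = 0 := by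
  have h1 : Submodule.span K {E | ∃ x y, E = EE v x y} ≤ (LinearMap.ker ρ).map τ := by
    rw [Submodule.span_le]
    rintro _ ⟨x, y, rfl⟩
    obtain ⟨X, hX, hX2⟩ := h x y
    exact ⟨X, hX2, hX⟩
  obtain ⟨Y, hY, hY2⟩ := h1 (mem_span_EE hv hm (hsT X))
  have hY' : ρ Y = 0 := hY
  exact ⟨X - Y, by rw [map_sub, hY', sub_zero], by rw [map_sub, hY2, sub_self]⟩

include hw hn hv hm hρ hτ hsS hsT hfS hfT in
/-- The linked case, for an element which is sent to the square of a vector. -/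
theorem linked_aux (hker : ∀ X, ρ X = 0 → τ X = 0) {s : S} (hs : s ≠ 0)
    {Xs : M} (hXs : ρ Xs = EE w s s) {t : T} (ht : t ≠ 0)
    (hN : τ Xs = EE v t t) :
    ∃ f : S →ₗ[K] T, (∀ X u, f (ρ X u) = τ X (f u)) ∧ (∀ x y, v (f x) (f y) = w x y) ∧
      Function.Surjective f := by
  have hker2 : ∀ X Y, ρ X = ρ Y → τ X = τ Y := by
    intro X Y h
    have h1 := hker (X - Y) (by rw [map_sub, h, sub_self])
    rwa [map_sub, sub_eq_zero] at h1
  -- the section
  let evS : M →ₗ[K] S := (LinearMap.applyₗ s).comp ρ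
  let evT : M →ₗ[K] T := (LinearMap.applyₗ t).comp τ
  have hevS : LinearMap.range evS = ⊤ := by
    rw [LinearMap.range_eq_top]
    intro y
    exact exists_move hw hn hfS hs y
  obtain ⟨σ, hσ'⟩ := LinearMap.exists_rightInverse_of_surjective evS hevS
  have hσ : ∀ u, ρ (σ u) s = u := fun u => congrArg (fun F => F u) hσ'
  let f : S →ₗ[K] T := evT.comp σ
  have hf : ∀ u, f u = τ (σ u) t := fun u => rfl
  have hE2 : ∀ x : S, EE w x s + EE w s x = (2 : K) • EE w x s := by
    intro x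
    rw [EE_comm w s x, two_smul]
  have hE2' : ∀ x : T, EE v x t + EE v t x = (2 : K) • EE v x t := by
    intro x
    rw [EE_comm v t x, two_smul]
  have hbr : ∀ Z, ρ (br Z Xs) = (2 : K) • EE w (ρ Z s) s := by
    intro Z
    rw [hρ, hXs, EE_bracket (hsS Z), hE2]
  have hbr' : ∀ Z, τ (br Z Xs) = (2 : K) • EE v (τ Z t) t := by
    intro Z
    rw [hτ, hN, EE_bracket (hsT Z), hE2']
  have k1 : ∀ Z, ρ Z s = 0 → τ Z t = 0 := by
    intro Z hZ
    have h1 := hbr Z
    rw [hZ, EE_zero_left, smul_zero] at h1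
    have h2 := hker _ h1
    rw [hbr'] at h2
    exact EE_eq_zero hv hm ht ((smul_eq_zero.1 h2).resolve_left two_ne_zero)
  have k2 : ∀ Z, f (ρ Z s) = τ Z t := by
    intro Z
    have h1 := k1 (σ (ρ Z s) - Z) (by rw [map_sub, LinearMap.sub_apply, hσ, sub_self])
    rw [map_sub, LinearMap.sub_apply, sub_eq_zero] at h1
    rw [hf, h1]
  have k3 : ∀ u, ∃ X, ρ X = EE w u s ∧ τ X = EE v (f u) t := by
    intro u
    refine ⟨(2 : K)⁻¹ • br (σ u) Xs, ?_, ?_⟩
    · rw [map_smul, hbr, hσ, smul_smul, inv_mul_cancel₀ two_ne_zero, one_smul]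
    · rw [map_smul, hbr', smul_smul, inv_mul_cancel₀ two_ne_zero, one_smul, hf]
  let δ : M → S → T := fun Z u => τ Z (f u) - f (ρ Z u)
  have hδ : ∀ Z u, δ Z u = τ Z (f u) - f (ρ Z u) := fun _ _ => rfl
  have k4 : ∀ Z u, ∃ W, ρ W = EE w u (ρ Z s) ∧ τ W = EE v (f u) (τ Z t) + EE v (δ Z u) t := by
    intro Z u
    obtain ⟨X, hX, hX'⟩ := k3 u
    obtain ⟨X', hXX, hXX'⟩ := k3 (ρ Z u)
    refine ⟨br Z X - X', ?_, ?_⟩
    · rw [map_sub, hρ, hX, EE_bracket (hsS Z), hXX, add_sub_cancel_left]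
    · rw [map_sub, hτ, hX', EE_bracket (hsT Z), hXX', hδ, EE_sub_left]
      abel
  have k5 : ∀ Z u, ρ Z s = 0 → δ Z u = 0 := by
    intro Z u hZ
    obtain ⟨W, hW, hW'⟩ := k4 Z u
    rw [hZ, EE_zero_right] at hW
    rw [k1 Z hZ, EE_zero_right, zero_add, hker W hW] at hW'
    exact EE_eq_zero hv hm ht hW'.symm
  have δsub : ∀ Z Z' u, δ (Z - Z') u = δ Z u - δ Z' u := by
    intro Z Z' u
    simp only [hδ, map_sub, LinearMap.sub_apply]
    abel
  have k5' : ∀ Z u, δ Z u = δ (σ (ρ Z s)) u := by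
    intro Z u
    have h1 := k5 (Z - σ (ρ Z s)) u (by rw [map_sub, LinearMap.sub_apply, hσ, sub_self])
    rwa [δsub, sub_eq_zero] at h1
  let Bf : S →ₗ[K] S →ₗ[K] T := LinearMap.mk₂ K (fun u x => δ (σ x) u)
    (fun u u' x => by
      simp only [hδ, map_add]
      abel)
    (fun a u x => by
      simp only [hδ, map_smul, smul_sub])
    (fun u x x' => by
      simp only [hδ, map_add, LinearMap.add_apply]
      abel)
    (fun a u x => by
      simp only [hδ, map_smul, LinearMap.smul_apply, smul_sub])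
  have hBf : ∀ u x, Bf u x = δ (σ x) u := fun _ _ => rfl
  have hBδ : ∀ Z u, δ Z u = Bf u (ρ Z s) := fun Z u => k5' Z u
  have k6 : ∀ u x, Bf u x = Bf x u := by
    intro u x
    obtain ⟨W, hW, hW'⟩ := k4 (σ x) u
    obtain ⟨V, hV, hV'⟩ := k4 (σ u) x
    rw [hσ] at hW hV
    rw [← hf] at hW' hV'
    have h1 := hker2 W V (by rw [hW, hV, EE_comm])
    rw [hW', hV', EE_comm v (f x), add_right_inj, ← sub_eq_zero, ← EE_sub_left] at h1
    exact sub_eq_zero.1 (EE_eq_zero hv hm ht h1)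
  have k7 : f s = t := by
    have h1 : ρ (br (σ s) Xs) = ρ ((2 : K) • Xs) := by rw [hbr, hσ, map_smul, hXs]
    have h2 := hker2 _ _ h1
    rw [hbr', map_smul, hN, ← sub_eq_zero, ← smul_sub, ← EE_sub_left] at h2
    have h3 := EE_eq_zero hv hm ht ((smul_eq_zero.1 h2).resolve_left two_ne_zero)
    rw [hf]
    exact sub_eq_zero.1 h3
  have k8 : ∀ u, Bf u s = 0 := by
    intro u
    rw [k6, hBf, hδ, k7, hσ, ← hf, sub_self]
  have k9 : ∀ u x, (v t (f u) - w s u) • f x + (v t (f x) - w s x) • f u + v t (Bf u x) • t = 0 := by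
    intro u x
    obtain ⟨W, hW, hW'⟩ := k4 (σ x) u
    rw [hσ] at hW
    rw [← hf, ← hBf] at hW'
    obtain ⟨X1, h1, h1'⟩ := k3 x
    obtain ⟨X2, h2, h2'⟩ := k3 u
    have h3 : ρ (br Xs W) = ρ ((2 * w s u) • X1 + (2 * w s x) • X2) := by
      rw [hρ, hW, EE_bracket (hsS Xs), hXs, EE_self, EE_self, map_add, map_smul, map_smul, h1, h2,
        EE_smul_left, EE_smul_right, EE_comm w s x]
    have h4 := hker2 _ _ h3
    rw [hτ, hW', mul_add, add_mul, add_sub_add_comm, EE_bracket (hsT Xs), EE_bracket (hsT Xs), hN,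
      EE_self, EE_self, EE_self, EE_self, hv, mul_zero, zero_smul, EE_zero_right, add_zero,
      map_add, map_smul, map_smul, h1', h2', EE_smul_left, EE_smul_right, EE_smul_left,
      EE_comm v t (f x)] at h4
    have h5 : EE v ((2 : K) • ((v t (f u) - w s u) • f x + (v t (f x) - w s x) • f u +
        v t (Bf u x) • t)) t = 0 := by
      rw [← sub_eq_zero] at h4
      rw [← h4]
      simp only [EE_smul_left, EE_add_left, sub_smul, EE_sub_left, mul_smul, smul_add, smul_sub]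
      abel
    have h6 := EE_eq_zero hv hm ht h5
    exact (smul_eq_zero.1 h6).resolve_left two_ne_zero
  have hsurj : Function.Surjective f := by
    intro y
    obtain ⟨Z, hZ⟩ := exists_move hv hm hfT ht y
    exact ⟨ρ Z s, by rw [k2, hZ]⟩
  have k10 : ∀ u, v t (f u) = w s u := by
    by_contra hcon
    push Not at hcon
    obtain ⟨u, hu⟩ := hcon
    have hu' : v t (f u) - w s u ≠ 0 := sub_ne_zero.2 hu
    have h1 : ∃ a : K, f u = a • t := by
      have h2 := k9 u u
      rw [← add_smul] at h2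
      have h3 : (v t (f u) - w s u + (v t (f u) - w s u)) ≠ 0 := by
        rw [← two_mul]
        exact mul_ne_zero two_ne_zero hu'
      have h4 := eq_neg_of_add_eq_zero_left h2
      refine ⟨(v t (f u) - w s u + (v t (f u) - w s u))⁻¹ * -(v t (Bf u u)), ?_⟩
      rw [mul_smul, neg_smul, ← h4, smul_smul, inv_mul_cancel₀ h3, one_smul]
    obtain ⟨a, ha⟩ := h1
    apply ht
    refine hm _ fun y => ?_
    obtain ⟨x, rfl⟩ := hsurj y
    have h2 := k9 u x
    have h3 : (v t (f u) - w s u) * v t (f x) = 0 := by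
      have h4 := congrArg (v t) h2
      simp only [map_add, map_smul, map_zero, hv, smul_eq_mul, mul_zero, add_zero, ha] at h4
      rw [ha]
      simpa [hv] using h4
    exact (mul_eq_zero.1 h3).resolve_left hu'
  have k10' : ∀ u x, v t (Bf u x) = 0 := by
    intro u x
    have h1 := k9 u x
    rw [k10, k10, sub_self, sub_self, zero_smul, zero_smul, zero_add, zero_add] at h1
    exact (smul_eq_zero.1 h1).resolve_right ht
  have k11 : ∀ x u, v (f x) (f u) = w x u := by
    intro x u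
    have h1 : v t (τ (σ x) (f u)) = w s (ρ (σ x) u) := by
      have h2 : τ (σ x) (f u) = f (ρ (σ x) u) + Bf u x := by
        rw [hBf, hδ]
        abel
      rw [h2, map_add, k10, k10', add_zero]
    have h2 := hsT (σ x) t (f u)
    have h3 := hsS (σ x) s u
    rw [hσ] at h3
    rw [← hf] at h2
    rw [h2, h1, h3]
  have k12 : ∀ u x, Bf u x = 0 := by
    obtain ⟨s', hs'⟩ := exists_pair hn hs
    obtain ⟨H, hH, hH'⟩ := k3 s'
    have hs2 : w s' s = -1 := by rw [w_anti hw, hs']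
    have hHs : ρ H s = -s := by
      rw [hH, EE_apply, hw, zero_smul, zero_add, hs2, neg_one_smul]
    have hE : ∀ u x, w s x • Bf u s' + Bf u x + w s u • Bf s' x = v (f s') (Bf u x) • t := by
      intro u x
      have h1 : δ (br H (σ x)) u = δ H (ρ (σ x) u) + τ H (δ (σ x) u) - δ (σ x) (ρ H u) -
          τ (σ x) (δ H u) := by
        simp only [hδ, hρ, hτ, Module.End.mul_apply, LinearMap.sub_apply, map_sub]
        abel
      have h2 : ∀ u, δ H u = 0 := by
        intro u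
        rw [hBδ, hHs, map_neg, k8, neg_zero]
      rw [h2, h2, map_zero, sub_zero, zero_add, hBδ, hρ] at h1
      simp only [Module.End.mul_apply, LinearMap.sub_apply, hσ, hHs, map_neg, sub_neg_eq_add,
        ← hBf, map_add] at h1
      rw [hH, hH'] at h1
      simp only [EE_apply, map_add, map_smul, k8, smul_zero, add_zero, k10', zero_smul, zero_add,
        LinearMap.add_apply, LinearMap.smul_apply, k6 s x] at h1
      rw [h1, sub_add_cancel]
    have hv' : v (f s') t = -1 := by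
      rw [← k7, k11, hs2]
    have hc : ∀ (c : K) (b : T), c ≠ 0 → c + 1 ≠ 0 → c • b = v (f s') b • t → b = 0 := by
      intro c b hc hc1 h
      have h2 := congrArg (v (f s')) h
      rw [map_smul, map_smul, hv', smul_eq_mul, smul_eq_mul] at h2
      have h3 : (c + 1) * v (f s') b = 0 := by linear_combination h2
      rw [(mul_eq_zero.1 h3).resolve_left hc1, zero_smul] at h
      exact (smul_eq_zero.1 h).resolve_left hc
    have h1 : Bf s' s' = 0 := by
      refine hc 3 _ (by norm_num) (by norm_num) ?_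
      rw [← hE s' s', hs', one_smul]
      have h2 : (3 : K) = 1 + 1 + 1 := by norm_num
      rw [h2, add_smul, add_smul, one_smul]
    have h2 : ∀ x, Bf s' x = 0 := by
      intro x
      refine hc 2 _ (by norm_num) (by norm_num) ?_
      rw [← hE s' x, hs', h1, smul_zero, zero_add, one_smul, two_smul]
    intro u x
    refine hc 1 _ (by norm_num) (by norm_num) ?_
    rw [← hE u x, h2, k6 u s', h2, smul_zero, smul_zero, zero_add, add_zero, one_smul]
  exact ⟨f, fun X u => by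
    have h1 := hBδ X u
    rw [k12, hδ, sub_eq_zero] at h1
    exact h1.symm, k11, hsurj⟩

include hw hn hv hm hρ hτ hsS hsT hfS hfT in
/-- The linked case. -/
theorem linked_of_ker (hker : ∀ X, ρ X = 0 → τ X = 0) {s : S} (hs : s ≠ 0)
    (hker' : ∀ X, τ X = 0 → ρ X = 0) :
    ∃ (a : K) (f : S →ₗ[K] T), a ≠ 0 ∧ (∀ X u, f (ρ X u) = τ X (f u)) ∧
      (∀ x y, a * v (f x) (f y) = w x y) ∧ Function.Surjective f := by
  obtain ⟨Xs, hXs⟩ := hfS s s
  have hP0 : EE w s s ≠ 0 := fun h => hs (EE_eq_zero hw hn hs h)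
  have hN0 : τ Xs ≠ 0 := fun h => hP0 (by rw [← hXs, hker' _ h])
  have hker2 : ∀ X Y, ρ X = ρ Y → τ X = τ Y := by
    intro X Y h
    have h1 := hker (X - Y) (by rw [map_sub, h, sub_self])
    rwa [map_sub, sub_eq_zero] at h1
  obtain ⟨a, t, ha, ht, hN⟩ := eq_EE_of_extremal hv hm (hsT Xs) hN0 (by
    intro y
    obtain ⟨Y, hY⟩ := hfT y y
    refine ⟨-4 * w s (ρ Y s), ?_⟩
    have h1 : ρ (br Xs (br Xs Y)) = ρ ((-4 * w s (ρ Y s)) • Xs) := by
      rw [hρ, hρ, map_smul, hXs, EE_ad_ad hw]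
    have h2 := hker2 _ _ h1
    rw [hτ, hτ, map_smul, hY] at h2
    exact h2)
  have hEE : ∀ x y : T, EE (a • v) x y = a • EE v x y := by
    intro x y
    ext u
    simp only [EE_apply, LinearMap.smul_apply, smul_eq_mul, mul_smul, smul_add]
  obtain ⟨f, h1, h2, h3⟩ := linked_aux (v := a • v) hw hn
    (fun x => by rw [LinearMap.smul_apply, LinearMap.smul_apply, hv, smul_zero])
    (fun x hx => hm x fun y => by
      have h1 := hx y
      rw [LinearMap.smul_apply, LinearMap.smul_apply, smul_eq_mul] at h1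
      exact (mul_eq_zero.1 h1).resolve_left ha) hρ hτ hsS
    (fun X x y => by
      simp only [LinearMap.smul_apply, smul_eq_mul, hsT X x y, mul_neg]) hfS
    (fun x y => by
      obtain ⟨X, hX⟩ := hfT x y
      exact ⟨a • X, by rw [map_smul, hX, hEE]⟩) hker hs hXs ht (by rw [hN, hEE])
  exact ⟨a, f, ha, h1, fun x y => by
    rw [← h2]
    simp only [LinearMap.smul_apply, smul_eq_mul], h3⟩

end Pool.Agent.W437.TA
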