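import Mathlib
import Pool.Agent.W437.TA.Link2

/-!
# Lie algebras which act as the full symplectic Lie algebra on several spaces
-/

set_option linter.unusedSectionVars false

namespace Pool.Agent.W437.TA

open Module

/-- A family of spaces on which a Lie algebra acts as the full symplectic Lie algebra. -/
structure Sys (K : Type*) [Field K] (M : Type*) [AddCommGroup M] [Module K M] (br : M → M → M) {𝒜 : Type}
    (N : 𝒜 → Type) [∀ a, AddCommGroup (N a)] [∀ a, Module K (N a)] where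
  /-- the forms -/
  w : ∀ a, N a →ₗ[K] N a →ₗ[K] K
  /-- the actions -/
  ρ : ∀ a, M →ₗ[K] Module.End K (N a)
  alt : ∀ a x, w a x x = 0
  nd : ∀ a x, (∀ y, w a x y = 0) → x = 0
  brk : ∀ a X Y, ρ a (br X Y) = ρ a X * ρ a Y - ρ a Y * ρ a X
  sp : ∀ a X, IsSp (w a) (ρ a X)
  full : ∀ a x y, ∃ X, ρ a X = EE (w a) x y

variable {K : Type*} [Field K] [CharZero K] {M : Type*} [AddCommGroup M] [Module K M] {br : M → M → M} {𝒜 : Type}
  {N : 𝒜 → Type} [∀ a, AddCommGroup (N a)] [∀ a, Module K (N a)] [∀ a, FiniteDimensional K (N a)]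
  [∀ a, Nontrivial (N a)] (s : Sys K M br N)

/-- Two of the spaces are isomorphic. -/
def Lnk (a b : 𝒜) : Prop :=
  ∃ (c : K) (f : N a ≃ₗ[K] N b), c ≠ 0 ∧ (∀ X u, f (s.ρ a X u) = s.ρ b X (f u)) ∧
    ∀ x y, c * s.w b (f x) (f y) = s.w a x y

theorem Lnk.refl (a : 𝒜) : Lnk s a a :=
  ⟨1, LinearEquiv.refl K _, one_ne_zero, fun _ _ => rfl, fun _ _ => one_mul _⟩

theorem Lnk.symm {a b : 𝒜} (h : Lnk s a b) : Lnk s b a := by
  obtain ⟨c, f, hc, h1, h2⟩ := h
  refine ⟨c⁻¹, f.symm, inv_ne_zero hc, fun X u => ?_, fun x y => ?_⟩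
  · rw [LinearEquiv.symm_apply_eq, h1, LinearEquiv.apply_symm_apply]
  · rw [← h2, LinearEquiv.apply_symm_apply, LinearEquiv.apply_symm_apply, ← mul_assoc,
      inv_mul_cancel₀ hc, one_mul]

theorem Lnk.trans {a b c : 𝒜} (h : Lnk s a b) (h' : Lnk s b c) : Lnk s a c := by
  obtain ⟨p, f, hp, h1, h2⟩ := h
  obtain ⟨q, f', hq, h1', h2'⟩ := h'
  refine ⟨p * q, f.trans f', mul_ne_zero hp hq, fun X u => ?_, fun x y => ?_⟩
  · rw [LinearEquiv.trans_apply, LinearEquiv.trans_apply, h1, h1']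
  · rw [LinearEquiv.trans_apply, LinearEquiv.trans_apply, mul_assoc, h2', h2]

/-- The classes of isomorphic spaces. -/
def lset : Setoid 𝒜 := ⟨Lnk s, ⟨Lnk.refl s, Lnk.symm s, Lnk.trans s⟩⟩

theorem dichotomy {a b : 𝒜} (h : ¬Lnk s a b) (x y : N a) :
    ∃ X, s.ρ a X = EE (s.w a) x y ∧ s.ρ b X = 0 := by
  by_cases h1 : ∃ X0, s.ρ b X0 = 0 ∧ s.ρ a X0 ≠ 0
  · obtain ⟨X0, h2, h3⟩ := h1
    exact indep_of_ker (s.alt a) (s.nd a) (s.brk a) (s.brk b) (s.sp a) (s.full a) h2 h3 x y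
  by_cases h2 : ∃ X0, s.ρ a X0 = 0 ∧ s.ρ b X0 ≠ 0
  · obtain ⟨X0, h2, h3⟩ := h2
    obtain ⟨X, hX⟩ := s.full a x y
    obtain ⟨Y, hY, hY'⟩ := indep_swap (s.alt b) (s.nd b) (s.sp b)
      (indep_of_ker (s.alt b) (s.nd b) (s.brk b) (s.brk a) (s.sp b) (s.full b) h2 h3) X
    exact ⟨Y, by rw [hY, hX], hY'⟩
  push Not at h1 h2
  exfalso
  apply h
  obtain ⟨z, hz⟩ := exists_ne (0 : N a)
  obtain ⟨c, f, hc, hf1, hf2, hf3⟩ := linked_of_ker (s.alt a) (s.nd a) (s.alt b) (s.nd b)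
    (s.brk a) (s.brk b) (s.sp a) (s.sp b) (s.full a) (s.full b) h2 hz h1
  refine ⟨c, LinearEquiv.ofBijective f ⟨?_, hf3⟩, hc, hf1, hf2⟩
  rw [injective_iff_map_eq_zero]
  intro u hu
  refine s.nd a _ fun y => ?_
  rw [← hf2, hu, map_zero, LinearMap.zero_apply, mul_zero]

/-- Elements which act only on one of several pairwise non isomorphic spaces. -/
theorem ribet (a : 𝒜) (F : Finset 𝒜) (hF : ∀ b ∈ F, ¬Lnk s a b) :
    ∀ x y : N a, ∃ X, s.ρ a X = EE (s.w a) x y ∧ ∀ b ∈ F, s.ρ b X = 0 := by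
  classical
  induction F using Finset.induction_on with
  | empty =>
    intro x y
    obtain ⟨X, hX⟩ := s.full a x y
    exact ⟨X, hX, fun b hb => absurd hb (Finset.notMem_empty b)⟩
  | insert b F hb ih =>
    have h1 := ih fun c hc => hF c (Finset.mem_insert_of_mem hc)
    have h2 := dichotomy s (hF b (Finset.mem_insert_self b F))
    let L0 : Submodule K M :=
      { carrier := {X | ∀ c ∈ insert b F, s.ρ c X = 0}
        zero_mem' := fun c _ => map_zero _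
        add_mem' := fun {X Y} hX hY c hc => by rw [map_add, hX c hc, hY c hc, add_zero]
        smul_mem' := fun r X hX c hc => by rw [map_smul, hX c hc, smul_zero] }
    obtain ⟨z, hz⟩ := exists_ne (0 : N a)
    obtain ⟨z', hz'⟩ := exists_pair (s.nd a) hz
    obtain ⟨X1, hX1, hX1'⟩ := h1 z z
    obtain ⟨X2, hX2, hX2'⟩ := h2 z' z'
    have h3 : s.ρ a (br X1 X2) = (4 : K) • EE (s.w a) z z' := by
      rw [s.brk, hX2, EE_bracket (s.sp a X1), hX1, EE_self, hz', mul_one, EE_smul_left,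
        EE_smul_right, EE_comm (s.w a) z' z, ← add_smul]
      norm_num
    have h4 : ∀ x y, EE (s.w a) x y ∈ L0.map (s.ρ a) := by
      refine ideal_full (s.alt a) (s.nd a) (s.brk a) (s.sp a) (s.full a) (L0.map (s.ρ a)) ?_
        (A := s.ρ a (br X1 X2)) ?_ (s.sp a _) ?_
      · rintro X _ ⟨Y, hY, rfl⟩
        refine ⟨br X Y, fun c hc => ?_, s.brk a X Y⟩
        rw [s.brk, hY c hc, mul_zero, zero_mul, sub_zero]
      · refine ⟨br X1 X2, fun c hc => ?_, rfl⟩
        rw [s.brk]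
        rcases Finset.mem_insert.1 hc with rfl | hc
        · rw [hX2', mul_zero, zero_mul, sub_zero]
        · rw [hX1' c hc, mul_zero, zero_mul, sub_zero]
      · rw [h3]
        intro h4
        have h5 := (smul_eq_zero.1 h4).resolve_left (by norm_num)
        have h6 : z' ≠ 0 := by
          rintro rfl
          rw [map_zero] at hz'
          exact zero_ne_one hz'
        exact hz (EE_eq_zero (s.alt a) (s.nd a) h6 h5)
    intro x y
    obtain ⟨X, hX, hX'⟩ := h4 x y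
    exact ⟨X, hX', hX⟩

/-- The simultaneous lifts. -/
theorem lift_class [Finite 𝒜] (a : 𝒜) (x y : N a) :
    ∃ X, s.ρ a X = EE (s.w a) x y ∧ (∀ b, ¬Lnk s a b → s.ρ b X = 0) ∧
      ∀ b (c : K) (f : N a ≃ₗ[K] N b), (∀ X u, f (s.ρ a X u) = s.ρ b X (f u)) →
        (∀ x y, c * s.w b (f x) (f y) = s.w a x y) → s.ρ b X = c • EE (s.w b) (f x) (f y) := by
  classical
  have := Fintype.ofFinite 𝒜
  obtain ⟨X, hX, hX'⟩ := ribet s a (Finset.univ.filter fun b => ¬Lnk s a b)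
    (fun b hb => (Finset.mem_filter.1 hb).2) x y
  refine ⟨X, hX, fun b hb => hX' b (Finset.mem_filter.2 ⟨Finset.mem_univ _, hb⟩), ?_⟩
  intro b c f hf1 hf2
  ext u
  obtain ⟨u, rfl⟩ := f.surjective u
  rw [← hf1, hX, LinearMap.smul_apply, EE_apply, EE_apply, map_add, map_smul, map_smul, smul_add,
    smul_smul, smul_smul, hf2, hf2]

end Pool.Agent.W437.TA
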