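import Mathlib
import Pool.Agent.W437.TA.Multi
import Pool.Agent.W437.HD.Darboux
import Pool.Agent.W437.HD.Var
import Pool.Agent.W437.HC.Assemble
import Pool.Agent.H204R3.GP.FFT

/-!
# Tensors killed by a Lie algebra which acts on several spaces as the symplectic Lie algebra
-/

set_option linter.unusedSectionVars false

namespace Pool.Agent.W437.TA

open Matrix Module Pool.Agent.H204R3.SP Pool.Agent.H204R3.GP Pool.Agent.W437.HC

section tm

variable {K : Type*} [Field K] [CharZero K] {B : Type*} [Fintype B] [DecidableEq B]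
  {R : Type} [Fintype R] [DecidableEq R] {Q : Type*} [Fintype Q] [DecidableEq Q]
  {cls : R → Q} {inv : R → R} {jj : R → K}

/-- The change of coordinates of forms which depends on the position. -/
def TmM {κ : Type*} [Fintype κ] [DecidableEq κ] (E : κ → Matrix R B K) :
    ((κ → R) → K) →ₗ[K] ((κ → B) → K) where
  toFun F := fun I => ∑ X : κ → R, F X * ∏ k, E k (X k) (I k)
  map_add' F G := by
    funext I
    simp only [Pi.add_apply, add_mul, Finset.sum_add_distrib]
  map_smul' a F := by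
    funext I
    simp only [Pi.smul_apply, smul_eq_mul, mul_assoc, Finset.mul_sum, RingHom.id_apply]

theorem TmM_apply {κ : Type*} [Fintype κ] [DecidableEq κ] (E : κ → Matrix R B K)
    (F : (κ → R) → K) (I : κ → B) : TmM E F I = ∑ X : κ → R, F X * ∏ k, E k (X k) (I k) := rfl

theorem TmM_coef {κ : Type*} [Fintype κ] [DecidableEq κ] {co : κ → Matrix R B K}
    {ev : κ → R → B → K} (c : (κ → B) → K)
    (hid : ∀ I : κ → B, (∀ k, (Pi.single (I k) 1 : B → K) = ∑ r, co k r (I k) • ev k r) ∨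
      (c I = 0 ∧ ∃ k, ∀ r, co k r (I k) = 0)) :
    TmM co (fun X : κ → R => evalF c (fun k => ev k (X k))) = c := by
  funext I
  rw [TmM_apply]
  rcases hid I with h | ⟨h0, k, hk⟩
  · have h1 : (fun k => Pi.single (I k) 1 : κ → B → K) = fun k => ∑ r, co k r (I k) • ev k r := by
      funext k
      exact h k
    rw [← evalF_single c I, h1, ← evalM_apply, MultilinearMap.map_sum]
    refine Finset.sum_congr rfl fun X _ => ?_
    rw [MultilinearMap.map_smul_univ, evalM_apply, smul_eq_mul, mul_comm]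
  · rw [h0]
    refine Finset.sum_eq_zero fun X _ => ?_
    rw [Finset.prod_eq_zero (Finset.mem_univ k) (hk _), mul_zero]

theorem TmM_matG {m : ℕ} (e : Equiv.Perm (Fin m × Fin 2)) (cc : Fin m → Q)
    (E : Fin m × Fin 2 → Matrix R B K) :
    TmM E (matG cls inv jj e cc) = fun I => ∏ s,
      ∑ y, ∑ y', E (e (s, 0)) y (I (e (s, 0))) *
        (if cls y = cc s then JJ inv jj y y' else 0) * E (e (s, 1)) y' (I (e (s, 1))) := by
  funext I
  rw [TmM_apply]
  have h1 : ∀ X : Fin m × Fin 2 → R,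
      matG cls inv jj e cc X * ∏ k, E k (X k) (I k) =
      ∏ s, ((if cls (X (e (s, 0))) = cc s then JJ inv jj (X (e (s, 0))) (X (e (s, 1))) else 0) *
        (E (e (s, 0)) (X (e (s, 0))) (I (e (s, 0))) *
          E (e (s, 1)) (X (e (s, 1))) (I (e (s, 1))))) := by
    intro X
    rw [← Equiv.prod_comp e (fun k => E k (X k) (I k)), Fintype.prod_prod_type]
    simp only [matG, Fin.prod_univ_two]
    rw [← Finset.prod_mul_distrib]
  rw [Finset.sum_congr rfl (fun X _ => h1 X)]
  rw [sum_match e (fun s x y => (if cls x = cc s then JJ inv jj x y else 0) *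
        (E (e (s, 0)) x (I (e (s, 0))) * E (e (s, 1)) y (I (e (s, 1)))))]
  refine Finset.prod_congr rfl fun s _ => ?_
  refine Finset.sum_congr rfl fun y _ => Finset.sum_congr rfl fun x _ => ?_
  ring

end tm

variable {K : Type*} [Field K] [CharZero K] {B : Type*} [Fintype B] [DecidableEq B] {𝒜 : Type}
  [Fintype 𝒜] [DecidableEq 𝒜] {N : 𝒜 → Type} [∀ a, AddCommGroup (N a)] [∀ a, Module K (N a)]
  [∀ a, FiniteDimensional K (N a)] [∀ a, Nontrivial (N a)] {Mo : Type*} [AddCommGroup Mo]
  [Module K Mo] {br : Mo → Mo → Mo}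

/-- The products over matchings of forms in two variables killed by the Lie algebra. -/
def Gen (s : Sys K Mo br N) (prj : ∀ a, (B → K) →ₗ[K] N a) {m : ℕ} (τ : Fin m × Fin 2 → 𝒜) :
    Set ((Fin m × Fin 2 → B) → K) :=
  {F | ∃ (e : Equiv.Perm (Fin m × Fin 2))
      (β : ∀ t : Fin m, N (τ (e (t, 0))) →ₗ[K] N (τ (e (t, 1))) →ₗ[K] K),
    (∀ t X u v, β t (s.ρ _ X u) v + β t u (s.ρ _ X v) = 0) ∧
    F = fun I => ∏ t, β t (prj _ (Pi.single (I (e (t, 0))) 1))
      (prj _ (Pi.single (I (e (t, 1))) 1))}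

/-- Adapted coordinates for a system of spaces. -/
structure Frame (s : Sys K Mo br N) (mat : Mo → Matrix B B K) (inc : ∀ a, N a →ₗ[K] (B → K))
    (prj : ∀ a, (B → K) →ₗ[K] N a) (Q R : Type) [Fintype Q] [DecidableEq Q] [Fintype R]
    [DecidableEq R] where
  /-- the class of a basis vector -/
  cls : R → Q
  /-- the dual basis vector -/
  inv : R → R
  /-- the sign -/
  jj : R → K
  /-- the class of a space -/
  cl : 𝒜 → Q
  /-- the coordinates -/
  co : 𝒜 → Matrix R B K
  /-- the vectors -/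
  ev : 𝒜 → R → B → K
  hinv : ∀ x, inv (inv x) = x
  hjj : ∀ x, jj (inv x) = -jj x
  hj1 : ∀ x, jj x = 1 ∨ jj x = -1
  hcls : ∀ x, cls (inv x) = cls x
  hsum : ∀ a i, ∑ y, co a y i • ev a y = inc a (prj a (Pi.single i 1))
  hco0 : ∀ a i, prj a (Pi.single i 1) = 0 → ∀ y, co a y i = 0
  hev : ∀ a y, cls y ≠ cl a → ev a y = 0
  hlift : ∀ b d, cls (inv b) = cls d → ∃ X, ∀ a y, mat X *ᵥ ev a y =
    JJ inv jj d y • ev a b + JJ inv jj b y • ev a d
  hform : ∀ (q : Q) (a b : 𝒜), ∃ β : N a →ₗ[K] N b →ₗ[K] K,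
    (∀ X u v, β (s.ρ a X u) v + β u (s.ρ b X v) = 0) ∧
    ∀ i j, ∑ y, ∑ y', co a y i * (if cls y = q then JJ inv jj y y' else 0) * co b y' j =
      β (prj a (Pi.single i 1)) (prj b (Pi.single j 1))

theorem exists_frame (s : Sys K Mo br N) (mat : Mo → Matrix B B K)
    (inc : ∀ a, N a →ₗ[K] (B → K)) (prj : ∀ a, (B → K) →ₗ[K] N a)
    (hinc : ∀ a X u, mat X *ᵥ inc a u = inc a (s.ρ a X u)) :
    ∃ (Q R : Type) (_ : Fintype Q) (_ : DecidableEq Q) (_ : Fintype R) (_ : DecidableEq R),
      Nonempty (Frame s mat inc prj Q R) := by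
  classical
  -- the classes
  let Q := Quotient (lset s)
  let r : Q → 𝒜 := Quotient.out
  have hr : ∀ (q : Q) (a : 𝒜), Lnk s (r q) a ↔ q = (Quotient.mk (lset s) a) := by
    intro q a
    constructor
    · intro h
      rw [← Quotient.out_eq q]
      exact Quotient.sound h
    · rintro rfl
      exact @Quotient.exact _ (lset s) (r (Quotient.mk (lset s) a)) a (Quotient.out_eq _)
  have : Fintype Q := Fintype.ofFinite Q
  have hF : ∀ (q : Q) (a : 𝒜), ∃ (d : K) (f : N (r q) →ₗ[K] N a) (f' : N a →ₗ[K] N (r q)),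
      (∀ X u, f (s.ρ (r q) X u) = s.ρ a X (f u)) ∧
      (∀ X u, f' (s.ρ a X u) = s.ρ (r q) X (f' u)) ∧
      (q = Quotient.mk (lset s) a → (∀ x y, d * s.w a (f x) (f y) = s.w (r q) x y) ∧
        (∀ u, f (f' u) = u) ∧ (∀ u, f' (f u) = u)) ∧
      (q ≠ Quotient.mk (lset s) a → f = 0 ∧ f' = 0) := by
    intro q a
    by_cases hq : q = Quotient.mk (lset s) a
    · obtain ⟨d, f, -, h1, h2⟩ := (hr q a).2 hq
      refine ⟨d, f, f.symm, h1, fun X u => ?_, fun _ => ⟨h2, fun u => f.apply_symm_apply u,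
        fun u => f.symm_apply_apply u⟩, fun h => absurd hq h⟩
      change f.symm _ = s.ρ (r q) X (f.symm u)
      rw [LinearEquiv.symm_apply_eq, h1, LinearEquiv.apply_symm_apply]
    · refine ⟨0, 0, 0, fun X u => ?_, fun X u => ?_, fun h => absurd h hq, fun _ => ⟨rfl, rfl⟩⟩
      · simp
      · simp
  choose dd Φ Ψ hΦe hΨe hΦΨ hΦ0 using hF
  -- symplectic bases
  have hD : ∀ q : Q, ∃ (R : Type) (_ : Fintype R) (_ : DecidableEq R)
      (e : Basis R K (N (r q))) (inv : R → R) (jj : R → K),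
      (∀ x, inv (inv x) = x) ∧ (∀ x, inv x ≠ x) ∧ (∀ x, jj (inv x) = -jj x) ∧
      (∀ x, jj x = 1 ∨ jj x = -1) ∧ ∀ x y, s.w (r q) (e x) (e y) = JJ inv jj x y := by
    intro q
    obtain ⟨R, h1, h2, e, inv, jj, h3, h4, h5, h6, h7⟩ :=
      Pool.Agent.W437.HD.exists_darboux
      (finrank K (N (r q))) (N (r q)) (s.w (r q)) (s.alt (r q))
      (fun u hu => s.nd (r q) u fun v => by rw [w_anti (s.alt (r q)), hu, neg_zero]) le_rfl
    exact ⟨R, h1, h2, e, inv, jj, h3, h4, h5, h6, h7⟩
  choose R hR1 hR2 e inv jj h3 h4 h5 h6 h7 using hD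
  have hJ : ∀ (q : Q) (x x' : R q), JJ (fun y : (Σ q, R q) => (⟨y.1, inv y.1 y.2⟩ : Σ q, R q))
      (fun y => jj y.1 y.2) (⟨q, x⟩ : Σ q, R q) ⟨q, x'⟩ = s.w (r q) (e q x) (e q x') := by
    intro q x x'
    rw [h7]
    unfold JJ
    by_cases hx : x' = inv q x
    · rw [if_pos hx, if_pos (by rw [hx])]
    · rw [if_neg hx, if_neg]
      intro h
      apply hx
      simpa using h
  have hJ0 : ∀ (q q' : Q) (x : R q) (x' : R q'), q ≠ q' →
      JJ (fun y : (Σ q, R q) => (⟨y.1, inv y.1 y.2⟩ : Σ q, R q))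
      (fun y => jj y.1 y.2) (⟨q, x⟩ : Σ q, R q) ⟨q', x'⟩ = 0 := by
    intro q q' x x' hq
    unfold JJ
    rw [if_neg]
    intro h
    exact hq (congrArg Sigma.fst h).symm
  let inv' : (Σ q, R q) → (Σ q, R q) := fun x => ⟨x.1, inv x.1 x.2⟩
  let jj' : (Σ q, R q) → K := fun x => jj x.1 x.2
  let co : 𝒜 → Matrix (Σ q, R q) B K :=
    fun a => Matrix.of fun y i => (e y.1).repr (Ψ y.1 a (prj a (Pi.single i 1))) y.2
  let ev : 𝒜 → (Σ q, R q) → B → K := fun a y => inc a (Φ y.1 a (e y.1 y.2))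
  have hco : ∀ a y i, co a y i = (e y.1).repr (Ψ y.1 a (prj a (Pi.single i 1))) y.2 :=
    fun _ _ _ => rfl
  have hev : ∀ a y, ev a y = inc a (Φ y.1 a (e y.1 y.2)) := fun _ _ => rfl
  have hsum : ∀ a i, ∑ y, co a y i • ev a y = inc a (prj a (Pi.single i 1)) := by
    intro a i
    rw [Fintype.sum_sigma]
    have h8 : ∀ q, ∑ x : R q, co a ⟨q, x⟩ i • ev a ⟨q, x⟩ =
        inc a (Φ q a (Ψ q a (prj a (Pi.single i 1)))) := by
      intro q
      conv_rhs => rw [← (e q).sum_repr (Ψ q a (prj a (Pi.single i 1)))]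
      rw [map_sum, map_sum]
      exact Finset.sum_congr rfl fun x _ => by rw [map_smul, map_smul, hco, hev]
    rw [Finset.sum_congr rfl (fun q _ => h8 q), Finset.sum_eq_single (Quotient.mk (lset s) a)]
    · rw [(hΦΨ _ a rfl).2.1]
    · intro q _ hq
      rw [(hΦ0 q a hq).1, LinearMap.zero_apply, map_zero]
    · intro h
      exact absurd (Finset.mem_univ _) h
  refine ⟨Q, Σ q, R q, inferInstance, inferInstance, inferInstance, inferInstance,
    ⟨{ cls := Sigma.fst
       inv := inv'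
       jj := jj'
       cl := fun a => Quotient.mk (lset s) a
       co := co
       ev := ev
       hinv := ?_
       hjj := ?_
       hj1 := ?_
       hcls := ?_
       hsum := hsum
       hco0 := ?_
       hev := ?_
       hlift := ?_
       hform := ?_ }⟩⟩
  · rintro ⟨p, x⟩
    simp only [inv', h3]
  · rintro ⟨p, x⟩
    simp only [inv', jj', h5]
  · rintro ⟨p, x⟩
    exact h6 p x
  · rintro ⟨p, x⟩
    rfl
  · intro a i h y
    rw [hco, h, map_zero, map_zero]
    rfl
  · rintro a ⟨q, x⟩ hq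
    rw [hev, (hΦ0 q a hq).1, LinearMap.zero_apply, map_zero]
  · rintro ⟨q, x⟩ ⟨q', x'⟩ hq
    have hq' : q = q' := hq
    subst hq'
    obtain ⟨X, hX1, hX2, hX3⟩ := lift_class s (r q) (e q x) (e q x')
    have hXe : ∀ a (y : Σ q, R q), mat X *ᵥ ev a y =
        JJ inv' jj' (⟨q, x'⟩ : Σ q, R q) y • ev a ⟨q, x⟩ +
          JJ inv' jj' (⟨q, x⟩ : Σ q, R q) y • ev a ⟨q, x'⟩ := by
      rintro a ⟨q2, z⟩
      rw [hev, hev, hev, hinc]
      by_cases hqa : q = Quotient.mk (lset s) a
      · by_cases hq2 : q2 = q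
        · subst hq2
          have e1 : JJ inv' jj' (⟨q2, x'⟩ : Σ q, R q) ⟨q2, z⟩ =
              s.w (r q2) (e q2 x') (e q2 z) := hJ _ _ _
          have e2 : JJ inv' jj' (⟨q2, x⟩ : Σ q, R q) ⟨q2, z⟩ =
              s.w (r q2) (e q2 x) (e q2 z) := hJ _ _ _
          rw [e1, e2]
          let f : N (r q2) ≃ₗ[K] N a := LinearEquiv.ofLinearMap (Φ q2 a) (Ψ q2 a)
            (by
              ext u
              exact (hΦΨ q2 a hqa).2.1 u)
            (by
              ext u
              exact (hΦΨ q2 a hqa).2.2 u)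
          have h8 := hX3 a (dd q2 a) f (hΦe q2 a) (hΦΨ q2 a hqa).1
          have hf : ∀ u, f u = Φ q2 a u := fun u => rfl
          rw [hf, hf] at h8
          rw [h8, LinearMap.smul_apply, EE_apply, smul_add, smul_smul, smul_smul,
            (hΦΨ q2 a hqa).1, (hΦΨ q2 a hqa).1, map_add, map_smul, map_smul]
        · have e1 : JJ inv' jj' (⟨q, x'⟩ : Σ q, R q) ⟨q2, z⟩ = 0 :=
            hJ0 q q2 _ _ (Ne.symm hq2)
          have e2 : JJ inv' jj' (⟨q, x⟩ : Σ q, R q) ⟨q2, z⟩ = 0 :=
            hJ0 q q2 _ _ (Ne.symm hq2)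
          rw [e1, e2, zero_smul, zero_smul,
            (hΦ0 q2 a (fun h => hq2 (h.trans hqa.symm))).1, LinearMap.zero_apply, map_zero,
            map_zero, add_zero]
      · rw [hX2 a (fun h => hqa ((hr q a).1 h)), (hΦ0 q a hqa).1]
        simp
    exact ⟨X, hXe⟩
  · intro q a b
    refine ⟨(s.w (r q)).compl₁₂ (Ψ q a) (Ψ q b), ?_, ?_⟩
    · intro X u v
      rw [LinearMap.compl₁₂_apply, LinearMap.compl₁₂_apply, hΨe, hΨe, s.sp, neg_add_cancel]
    · intro i j
      rw [LinearMap.compl₁₂_apply]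
      rw [Fintype.sum_sigma, Finset.sum_eq_single q]
      · conv_rhs => rw [← (e q).sum_repr (Ψ q a (prj a (Pi.single i 1))),
          ← (e q).sum_repr (Ψ q b (prj b (Pi.single j 1)))]
        rw [LinearMap.map_sum₂]
        refine Finset.sum_congr rfl fun x _ => ?_
        rw [Fintype.sum_sigma, Finset.sum_eq_single q]
        · rw [map_smul, LinearMap.smul_apply, map_sum, smul_eq_mul, Finset.mul_sum]
          refine Finset.sum_congr rfl fun x' _ => ?_
          have e1 : JJ inv' jj' (⟨q, x⟩ : Σ q, R q) ⟨q, x'⟩ =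
              s.w (r q) (e q x) (e q x') := hJ _ _ _
          rw [if_pos rfl, e1, map_smul, smul_eq_mul, hco, hco]
          ring
        · intro q' _ hq'
          refine Finset.sum_eq_zero fun x' _ => ?_
          have e1 : JJ inv' jj' (⟨q, x⟩ : Σ q, R q) ⟨q', x'⟩ = 0 := hJ0 q q' _ _ (Ne.symm hq')
          rw [if_pos rfl, e1, mul_zero, zero_mul]
        · intro h
          exact absurd (Finset.mem_univ _) h
      · intro q' _ hq'
        refine Finset.sum_eq_zero fun x _ => Finset.sum_eq_zero fun y' _ => ?_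
        rw [if_neg hq', mul_zero, zero_mul]
      · intro h
        exact absurd (Finset.mem_univ _) h

section frame

variable {s : Sys K Mo br N} {mat : Mo → Matrix B B K} {inc : ∀ a, N a →ₗ[K] (B → K)}
    {prj : ∀ a, (B → K) →ₗ[K] N a} {Q R : Type} [Fintype Q] [DecidableEq Q] [Fintype R]
    [DecidableEq R] (f : Frame s mat inc prj Q R)

/-- The coefficients of a form. -/
theorem frame_inv {κ : Type} [Fintype κ] [DecidableEq κ] (τ : κ → 𝒜) (c : (κ → B) → K)
    (hc : ∀ X, act (mat X) c = 0) :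
    (fun X : κ → R => evalF c (fun k => f.ev (τ k) (X k))) ∈
      InvG f.cls f.inv f.jj κ (fun k => f.cl (τ k)) := by
  refine ⟨?_, ?_⟩
  · intro x x' hx I
    obtain ⟨X, hX⟩ := f.hlift x x' hx
    have h8 := evalF_act (mat X) c (fun k => f.ev (τ k) (I k))
    rw [hc X, evalF_zero] at h8
    rw [h8]
    refine Finset.sum_congr rfl fun p _ => ?_
    rw [hX, evalF_update_add, evalF_update_smul, evalF_update_smul]
    have h9 : ∀ z : R, Function.update (fun k => f.ev (τ k) (I k)) p (f.ev (τ p) z) =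
        fun k => f.ev (τ k) (Function.update I p z k) := by
      intro z
      funext k
      by_cases hk : k = p
      · subst hk
        rw [Function.update_self, Function.update_self]
      · rw [Function.update_of_ne hk, Function.update_of_ne hk]
    rw [h9, h9]
    ring
  · intro I hI k
    by_contra hk
    apply hI
    have h9 : (fun k => f.ev (τ k) (I k)) = Function.update (fun k => f.ev (τ k) (I k)) k
        ((0 : K) • (0 : B → K)) := by
      rw [zero_smul, ← f.hev (τ k) (I k) hk, Function.update_eq_self]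
    change evalF c (fun k => f.ev (τ k) (I k)) = 0
    rw [h9, evalF_update_smul, zero_mul]

/-- The form is determined by its coefficients. -/
theorem frame_coef {κ : Type} [Fintype κ] [DecidableEq κ] (τ : κ → 𝒜) (c : (κ → B) → K)
    (htype : ∀ I : κ → B,
      (∀ k, (Pi.single (I k) 1 : B → K) = inc (τ k) (prj (τ k) (Pi.single (I k) 1))) ∨
      (c I = 0 ∧ ∃ k, prj (τ k) (Pi.single (I k) 1) = 0)) :
    TmM (fun k => f.co (τ k)) (fun X : κ → R => evalF c (fun k => f.ev (τ k) (X k))) = c := by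
  refine TmM_coef (co := fun k => f.co (τ k)) (ev := fun k => f.ev (τ k)) c fun I => ?_
  rcases htype I with h | ⟨h, k, hk⟩
  · left
    intro k
    rw [f.hsum]
    exact h k
  · right
    exact ⟨h, k, f.hco0 _ _ hk⟩

end frame

/-- Coefficient functions in an odd number of variables vanish. -/
theorem inv_odd {R Q : Type} [Fintype R] [DecidableEq R] [Fintype Q] [DecidableEq Q]
    {cls : R → Q} {inv : R → R} {jj : R → K} (hinv : ∀ x, inv (inv x) = x)
    (hjj : ∀ x, jj (inv x) = -jj x) (hj1 : ∀ x, jj x = 1 ∨ jj x = -1)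
    {κ : Type} [Fintype κ] [DecidableEq κ] (hκ : Odd (Fintype.card κ)) {t : κ → Q}
    {f : (κ → R) → K} (hf : f ∈ InvG cls inv jj κ t) : f = 0 := by
  funext I
  have h1 : ∀ x, ∑ k, (JJ inv jj x (I k) * f (Function.update I k (inv x)) +
      JJ inv jj (inv x) (I k) * f (Function.update I k x)) = 0 := fun x => hf.1 x (inv x) rfl I
  have h2 : ∑ x, ∑ k, (JJ inv jj x (I k) * f (Function.update I k (inv x)) +
      JJ inv jj (inv x) (I k) * f (Function.update I k x)) = 0 :=
    Finset.sum_eq_zero fun x _ => h1 x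
  rw [Finset.sum_comm] at h2
  have h3 : ∀ k, ∑ x, (JJ inv jj x (I k) * f (Function.update I k (inv x)) +
      JJ inv jj (inv x) (I k) * f (Function.update I k x)) = -2 * (jj (I k) * f I) := by
    intro k
    rw [Finset.sum_add_distrib]
    have e1 : ∑ x, JJ inv jj x (I k) * f (Function.update I k (inv x)) =
        -(jj (I k) * f I) := by
      rw [Finset.sum_eq_single (inv (I k))]
      · unfold JJ
        rw [if_pos (hinv _).symm, hinv, Function.update_eq_self, hjj, neg_mul]
      · intro x _ hx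
        unfold JJ
        rw [if_neg, zero_mul]
        intro h
        exact hx (by rw [h, hinv])
      · intro h
        exact absurd (Finset.mem_univ _) h
    have e2 : ∑ x, JJ inv jj (inv x) (I k) * f (Function.update I k x) =
        -(jj (I k) * f I) := by
      rw [Finset.sum_eq_single (I k)]
      · unfold JJ
        rw [if_pos (hinv _).symm, Function.update_eq_self, hjj, neg_mul]
      · intro x _ hx
        unfold JJ
        rw [if_neg, zero_mul]
        intro h
        rw [hinv] at h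
        exact hx h.symm
      · intro h
        exact absurd (Finset.mem_univ _) h
    rw [e1, e2]
    ring
  rw [Finset.sum_congr rfl (fun k _ => h3 k), ← Finset.mul_sum, ← Finset.sum_mul] at h2
  have h4 : ∀ S : Finset κ, ∃ z : ℤ, ∑ k ∈ S, jj (I k) = z ∧ (Odd z ↔ Odd S.card) := by
    intro S
    induction S using Finset.induction_on with
    | empty => exact ⟨0, by simp, by simp⟩
    | insert j S hj ih =>
      obtain ⟨z, hz, hz'⟩ := ih
      rw [Finset.sum_insert hj, Finset.card_insert_of_notMem hj, hz]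
      rcases hj1 (I j) with h | h
      · refine ⟨1 + z, by rw [h]; push_cast; ring, ?_⟩
        rw [Nat.odd_add_one, ← hz', add_comm]
        constructor
        · intro h1 h2
          exact absurd (h2.add_odd odd_one) (by rwa [Int.not_even_iff_odd])
        · intro h1
          rw [Int.not_odd_iff_even] at h1
          exact h1.add_odd odd_one
      · refine ⟨-1 + z, by rw [h]; push_cast; ring, ?_⟩
        rw [Nat.odd_add_one, ← hz', add_comm, ← sub_eq_add_neg]
        constructor
        · intro h1 h2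
          exact absurd (h2.sub_odd odd_one) (by rwa [Int.not_even_iff_odd])
        · intro h1
          rw [Int.not_odd_iff_even] at h1
          exact h1.sub_odd odd_one
  obtain ⟨z, hz, hz'⟩ := h4 Finset.univ
  rw [hz] at h2
  have h5 : Odd z := hz'.2 (by rwa [Finset.card_univ])
  have h6 : (z : K) ≠ 0 := by
    intro h
    have h7 : z = 0 := by exact_mod_cast h
    rw [h7] at h5
    exact absurd h5 (by decide)
  have h7 := (mul_eq_zero.1 h2).resolve_left (by norm_num)
  exact (mul_eq_zero.1 h7).resolve_left h6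

/-- The theorem on forms for a system of spaces. -/
theorem fft_sys (s : Sys K Mo br N) (mat : Mo → Matrix B B K) (inc : ∀ a, N a →ₗ[K] (B → K))
    (prj : ∀ a, (B → K) →ₗ[K] N a)
    (hinc : ∀ a X u, mat X *ᵥ inc a u = inc a (s.ρ a X u))
    {m : ℕ} (τ : Fin m × Fin 2 → 𝒜) (c : (Fin m × Fin 2 → B) → K)
    (htype : ∀ I : Fin m × Fin 2 → B,
      (∀ k, (Pi.single (I k) 1 : B → K) = inc (τ k) (prj (τ k) (Pi.single (I k) 1))) ∨
      (c I = 0 ∧ ∃ k, prj (τ k) (Pi.single (I k) 1) = 0))
    (hc : ∀ X, act (mat X) c = 0) : c ∈ Submodule.span K (Gen s prj τ) := by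
  obtain ⟨Q, R, _, _, _, _, ⟨f⟩⟩ := exists_frame s mat inc prj hinc
  have h2 : (fun X : Fin m × Fin 2 → R => evalF c (fun k => f.ev (τ k) (X k))) ∈
      MatG f.cls f.inv f.jj (Fin m × Fin 2) m := by
    refine fftG (cls := f.cls) (inv := f.inv) (jj := f.jj) f.hinv f.hjj ?_ ?_ m (Fin m × Fin 2)
      (by simp [mul_comm]) (fun k => f.cl (τ k)) (frame_inv f τ c hc)
    · intro x
      rcases f.hj1 x with h | h
      · rw [h]
        exact one_ne_zero
      · rw [h]
        exact neg_ne_zero.2 one_ne_zero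
    · intro x y h
      rw [f.hcls, f.hcls, h]
  have h8 := Submodule.mem_map_of_mem (f := TmM (fun k => f.co (τ k))) h2
  rw [frame_coef f τ c htype] at h8
  unfold MatG at h8
  rw [Submodule.map_span] at h8
  refine Submodule.span_mono ?_ h8
  rintro _ ⟨_, ⟨e', cc, rfl⟩, rfl⟩
  choose β hβ1 hβ2 using fun t : Fin m => f.hform (cc t) (τ (e' (t, 0))) (τ (e' (t, 1)))
  refine ⟨e', β, hβ1, ?_⟩
  rw [TmM_matG]
  funext I
  exact Finset.prod_congr rfl fun t _ => hβ2 t _ _

/-- Forms in an odd number of variables vanish. -/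
theorem odd_sys (s : Sys K Mo br N) (mat : Mo → Matrix B B K) (inc : ∀ a, N a →ₗ[K] (B → K))
    (prj : ∀ a, (B → K) →ₗ[K] N a)
    (hinc : ∀ a X u, mat X *ᵥ inc a u = inc a (s.ρ a X u))
    {κ : Type} [Fintype κ] [DecidableEq κ] (hκ : Odd (Fintype.card κ)) (τ : κ → 𝒜)
    (c : (κ → B) → K)
    (htype : ∀ I : κ → B,
      (∀ k, (Pi.single (I k) 1 : B → K) = inc (τ k) (prj (τ k) (Pi.single (I k) 1))) ∨
      (c I = 0 ∧ ∃ k, prj (τ k) (Pi.single (I k) 1) = 0))
    (hc : ∀ X, act (mat X) c = 0) : c = 0 := by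
  obtain ⟨Q, R, _, _, _, _, ⟨f⟩⟩ := exists_frame s mat inc prj hinc
  rw [← frame_coef f τ c htype, inv_odd f.hinv f.hjj f.hj1 hκ (frame_inv f τ c hc), map_zero]

end Pool.Agent.W437.TA
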