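import Mathlib

/-!
# Tate classes on the tensor powers of a sum of representations
-/

set_option linter.unusedSectionVars false

namespace Pool.Agent.W437.TA

open Matrix

variable {F : Type} [Field F] {Γ : Type} [Group Γ]

/-- A symplectic representation of weight `k` on `F ^ N`: the representation `ρ` and an alternating
tensor `E`, of maximal rank, on which `g` acts by `χ g ^ k`. -/
structure SpRep (χ : Γ →* Fˣ) (k : ℤ) (N : ℕ) where
  /-- the representation -/
  ρ : Γ →* Matrix (Fin N) (Fin N) F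
  /-- the tensor -/
  E : Matrix (Fin N) (Fin N) F
  alt : Eᵀ = -E
  unit : IsUnit E
  sim : ∀ g, ρ g * E * (ρ g)ᵀ = ((χ g ^ k : Fˣ) : F) • E

/-- The image of the representation is big: the symplectic Lie algebra, the space of all `X` with
`X E + E Xᵀ = 0`, is irreducible for the conjugation action. -/
def SpRep.IsBig {χ : Γ →* Fˣ} {k : ℤ} {N : ℕ} (V : SpRep χ k N) : Prop :=
  ∀ U : Submodule F (Matrix (Fin N) (Fin N) F), (∀ X ∈ U, X * V.E + V.E * Xᵀ = 0) →
    (∀ g, ∀ X ∈ U, V.ρ g * X * V.ρ g⁻¹ ∈ U) → U = ⊥ ∨ ∀ X, X * V.E + V.E * Xᵀ = 0 → X ∈ U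

/-- The basis of the sum `M ⊕ ⨁ V i`: first the basis of `M`, then the bases of the `V i`. -/
abbrev Bas {ι : Type} (l : ℕ) (N : ι → ℕ) : Type := Fin l ⊕ (Σ i, Fin (N i))

variable {ι : Type} [Fintype ι] [DecidableEq ι] {χ : Γ →* Fˣ} {k : ι → ℤ} {N : ι → ℕ} {l : ℕ}
  (M : Γ →* Matrix (Fin l) (Fin l) F) (V : ∀ i, SpRep χ (k i) (N i))

/-- The action of `g` on `M ⊕ ⨁ V i`. -/
def grp (g : Γ) : Matrix (Bas l N) (Bas l N) F :=
  Matrix.fromBlocks (M g) 0 0 (Matrix.blockDiagonal' fun i => (V i).ρ g)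

/-- The tensor `c` in the tensor power `(M ⊕ ⨁ V i)^{⊗ κ}` is a Tate class: all elements of a
subgroup of finite index multiply it by a fixed power of the character `χ`. -/
def IsTateClass {κ : Type} [Fintype κ] [DecidableEq κ] (c : (κ → Bas l N) → F) : Prop :=
  ∃ (n : ℤ) (H : Subgroup Γ), H.FiniteIndex ∧ ∀ g ∈ H, ∀ I,
    ∑ J : κ → Bas l N, (∏ j, grp M V g (I j) (J j)) * c J = ((χ g ^ n : Fˣ) : F) * c I

/-- The summand `V i` is independent of `M` at one element of `Γ`: either some `u` with `χ u = 1` (in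
an inertia group) acts trivially on `M`, nontrivially on `V i` and unipotently on all `V j`, or `F`
is algebraically closed and some `f` (a Frobenius element) has an eigenvalue `a` on `V i` such that
no power `a ^ m` with `0 < m` belongs to the multiplicative group generated by `χ f` and the
eigenvalues of `f` on `M`. -/
def IsIndep (i : ι) : Prop :=
  (∃ u : Γ, χ u = 1 ∧ M u = 1 ∧ (V i).ρ u ≠ 1 ∧ ∀ j, IsNilpotent ((V j).ρ u - 1)) ∨
  (IsAlgClosed F ∧ ∃ (f : Γ) (a : Fˣ), ((V i).ρ f).charpoly.IsRoot (a : F) ∧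
    ∀ m : ℕ, 0 < m → a ^ m ∉ Subgroup.closure ({χ f} ∪ {b | (M f).charpoly.IsRoot (b : F)}))

/-- The tensor in `V i ⊗ V j` with the coefficient matrix `m`. -/
def pairClass (l : ℕ) (i j : ι) (m : Matrix (Fin (N i)) (Fin (N j)) F) :
    (Fin 2 → Bas l N) → F :=
  fun I => ∑ b, ∑ b', if I 0 = Sum.inr ⟨i, b⟩ ∧ I 1 = Sum.inr ⟨j, b'⟩ then m b b' else 0

/-- A system of tensors, for all finite sets `κ` of factors, with the formal properties of the
classes of algebraic cycles: it is closed under products (`mul`) and permutations of the factors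
(`perm`), it contains the Tate classes of the tensor powers of `M` (`low`), the alternating
tensors of the `V i` (`diag`), and the Tate classes of `V i ⊗ V j` for `i ≠ j` (`cross`). -/
structure IsSystem (A : ∀ κ : Type, Submodule F ((κ → Bas l N) → F)) : Prop where
  mul : ∀ (κ κ' : Type) [Finite κ] [Finite κ'] (c : (κ → Bas l N) → F)
    (c' : (κ' → Bas l N) → F), c ∈ A κ → c' ∈ A κ' →
    (fun I : κ ⊕ κ' → Bas l N => c (fun j => I (Sum.inl j)) * c' (fun j => I (Sum.inr j))) ∈
      A (κ ⊕ κ')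
  perm : ∀ (κ κ' : Type) [Finite κ] (e : κ ≃ κ') (c : (κ → Bas l N) → F), c ∈ A κ →
    (fun I : κ' → Bas l N => c (fun j => I (e j))) ∈ A κ'
  low : ∀ (κ : Type) [Fintype κ] [DecidableEq κ] (c : (κ → Bas l N) → F), IsTateClass M V c →
    (∀ I, (∃ j b, I j = Sum.inr b) → c I = 0) → c ∈ A κ
  diag : ∀ i, pairClass l i i (V i).E ∈ A (Fin 2)
  cross : ∀ i j, i ≠ j → ∀ m, IsTateClass M V (pairClass l i j m) → pairClass l i j m ∈ A (Fin 2)

end Pool.Agent.W437.TA
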