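import Mathlib
import Pool.Agent.W437.HP.Blk

/-!
# Logarithms of unipotent matrices and invariant tensors
-/

set_option linter.unusedSectionVars false

namespace Pool.Agent.W437.TA

open Matrix Polynomial Pool.Agent.W437.HC Pool.Agent.W437.HP

variable {F : Type*} [Field F] [CharZero F] {B : Type*} [Fintype B] [DecidableEq B]

/-- The derivative at zero of a matrix of polynomials. -/
noncomputable def dr (P : Matrix B B F[X]) : Matrix B B F :=
  P.map fun p => (derivative p).eval 0

/-- The value of a matrix of polynomials. -/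
noncomputable def evm (P : Matrix B B F[X]) (x : F) : Matrix B B F := P.map fun p => p.eval x

theorem eq_of_eval_nat {p q : F[X]} {S : Set ℕ} (hS : S.Infinite)
    (h : ∀ k ∈ S, p.eval (k : F) = q.eval (k : F)) : p = q := by
  refine Polynomial.eq_of_infinite_eval_eq p q ?_
  refine (hS.image (f := fun k : ℕ => (k : F)) (Nat.cast_injective.injOn)).mono ?_
  rintro _ ⟨k, hk, rfl⟩
  exact h k hk

theorem act_of_poly {κ : Type*} [Fintype κ] [DecidableEq κ] (P : Matrix B B F[X])
    (h0 : evm P 0 = 1) (c : (κ → B) → F) {S : Set ℕ} (hS : S.Infinite)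
    (h : ∀ k ∈ S, pull (evm P k) c = c) : act (dr P) c = 0 := by
  funext I
  have h1 : (∑ J : κ → B, C (c J) * ∏ j, P (J j) (I j)) = C (c I) := by
    refine eq_of_eval_nat hS fun k hk => ?_
    have h2 := congrFun (h k hk) I
    rw [eval_finsetSum, eval_C, ← h2]
    unfold pull
    refine Finset.sum_congr rfl fun J _ => ?_
    rw [eval_mul, eval_C, eval_prod]
    rfl
  have h2 := congrArg (fun p => (derivative p).eval 0) h1
  simp only [derivative_sum, derivative_C, eval_zero, eval_finsetSum, derivative_mul, zero_mul,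
    zero_add, eval_mul, eval_C, derivative_prod_finset] at h2
  rw [Pi.zero_apply, ← h2]
  unfold act
  simp only [eval_finsetSum, eval_mul, Finset.mul_sum]
  rw [Finset.sum_comm (s := (Finset.univ : Finset (κ → B)))]
  refine Finset.sum_congr rfl fun j _ => ?_
  refine Fintype.sum_of_injective (fun b => Function.update I j b) ?_ _ _ ?_ ?_
  · intro b b' hb
    have h3 := congrFun hb j
    simpa using h3
  · intro J hJ
    have h3 : ∃ s, s ≠ j ∧ J s ≠ I s := by
      by_contra h4
      push Not at h4
      apply hJ
      refine ⟨J j, ?_⟩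
      funext s
      by_cases hs : s = j
      · subst hs
        simp
      · simp only
        rw [Function.update_of_ne hs, h4 s hs]
    obtain ⟨s, hs, hs2⟩ := h3
    rw [eval_prod, Finset.prod_eq_zero (Finset.mem_erase.2 ⟨hs, Finset.mem_univ s⟩), zero_mul,
      mul_zero]
    have h4 := congrFun (congrFun h0 (J s)) (I s)
    rw [Matrix.one_apply_ne hs2] at h4
    exact h4
  · intro b
    simp only [Function.update_self]
    have h3 : (∏ i ∈ Finset.univ.erase j, P (Function.update I j b i) (I i)).eval 0 = 1 := by
      rw [eval_prod]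
      refine Finset.prod_eq_one fun s hs => ?_
      rw [Function.update_of_ne (Finset.ne_of_mem_erase hs)]
      have h4 := congrFun (congrFun h0 (I s)) (I s)
      rw [Matrix.one_apply_eq] at h4
      exact h4
    rw [h3, one_mul, mul_comm]
    rfl

theorem exists_poly (T : Matrix B B F) (hT : IsNilpotent (T - 1)) :
    ∃ P : Matrix B B F[X], ∀ k : ℕ, evm P k = T ^ k := by
  obtain ⟨n, hn⟩ := hT
  obtain ⟨X, hX⟩ : ∃ X, X = T - 1 := ⟨_, rfl⟩
  rw [← hX] at hn
  have hT : T = X + 1 := by rw [hX, sub_add_cancel]
  refine ⟨Matrix.of fun a b => ∑ s ∈ Finset.range n,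
    C ((s.factorial : F)⁻¹ * (X ^ s) a b) * descPochhammer F s, fun k => ?_⟩
  have h1 : ∀ s, n ≤ s → X ^ s = 0 := fun s hs => pow_eq_zero_of_le hs hn
  have h2 : T ^ k = ∑ s ∈ Finset.range n, (k.choose s : F) • X ^ s := by
    rw [hT, (Commute.one_right X).add_pow]
    simp only [one_pow, mul_one]
    have h3 : ∀ s, X ^ s * (k.choose s : Matrix B B F) = (k.choose s : F) • X ^ s := by
      intro s
      rw [← nsmul_eq_mul', Nat.cast_smul_eq_nsmul]
    simp only [h3]
    rcases le_total n (k + 1) with h | h
    · symm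
      refine Finset.sum_subset (Finset.range_subset_range.2 h) fun s _ hs => ?_
      rw [h1 s (by simpa using hs), smul_zero]
    · refine Finset.sum_subset (Finset.range_subset_range.2 h) fun s _ hs => ?_
      rw [Nat.choose_eq_zero_of_lt (by simpa using hs), Nat.cast_zero, zero_smul]
  rw [h2]
  ext a b
  unfold evm
  rw [Matrix.map_apply, Matrix.of_apply, eval_finsetSum, Matrix.sum_apply]
  refine Finset.sum_congr rfl fun s _ => ?_
  rw [eval_mul, eval_C, descPochhammer_eval_eq_descFactorial, Nat.descFactorial_eq_factorial_mul_choose,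
    Nat.cast_mul, Matrix.smul_apply, smul_eq_mul]
  have h3 : (s.factorial : F) ≠ 0 := Nat.cast_ne_zero.2 s.factorial_ne_zero
  field_simp

theorem dr_ne (T : Matrix B B F) (P : Matrix B B F[X]) (h : ∀ k : ℕ, evm P k = T ^ k)
    (hT : T ≠ 1) : dr P ≠ 0 := by
  intro h0
  apply hT
  have hk : ∀ k : ℕ, ∀ a b, (derivative (P a b)).eval (k : F) = 0 := by
    intro k a b
    have h1 : (P a b).comp (X + C (k : F)) = ∑ s, P a s * C ((T ^ k) s b) := by
      refine eq_of_eval_nat (S := Set.univ) Set.infinite_univ fun n _ => ?_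
      rw [eval_comp, eval_add, eval_X, eval_C, eval_finsetSum, ← Nat.cast_add]
      have h2 := congrFun (congrFun (h (n + k)) a) b
      rw [pow_add, ← h n, Matrix.mul_apply] at h2
      refine h2.trans (Finset.sum_congr rfl fun s _ => ?_)
      rw [eval_mul, eval_C]
      rfl
    have h2 := congrArg (fun p => (derivative p).eval 0) h1
    simp only [derivative_comp, derivative_add, derivative_X, derivative_C, add_zero, one_mul,
      eval_comp, eval_add, eval_X, eval_C, zero_add, derivative_sum, eval_finsetSum,
      derivative_mul, mul_zero, eval_mul, eval_zero] at h2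
    rw [h2]
    refine Finset.sum_eq_zero fun s _ => ?_
    have h3 : (derivative (P a s)).eval 0 = 0 := congrFun (congrFun h0 a) s
    rw [h3, zero_mul]
  have h1 : ∀ a b, derivative (P a b) = 0 := fun a b =>
    eq_of_eval_nat (S := Set.univ) Set.infinite_univ fun n _ => by rw [hk, eval_zero]
  have h2 := h 1
  have h3 := h 0
  rw [pow_one] at h2
  rw [pow_zero] at h3
  rw [← h2, ← h3]
  ext a b
  have h4 := derivative_eq_zero.1 (h1 a b)
  rw [natDegree_eq_zero] at h4
  obtain ⟨x, hx⟩ := h4
  unfold evm
  rw [Matrix.map_apply, Matrix.map_apply, ← hx, eval_C, eval_C]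

end Pool.Agent.W437.TA
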