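import Mathlib
import Pool.Agent.W437.TA.Defs
import Pool.Agent.W437.TA.Log
import Pool.Agent.W437.TA.Multi
import Pool.Agent.W437.CY.Pull

/-!
# The blocks of the sum of representations
-/

set_option linter.unusedSectionVars false

namespace Pool.Agent.W437.TA

open Matrix Pool.Agent.W437.HC Pool.Agent.W437.HP

variable {F : Type} [Field F] {ι : Type} [Fintype ι] [DecidableEq ι] {N : ι → ℕ} {l : ℕ}

/-- The block diagonal matrix with zero on the first summand. -/
def em (l : ℕ) (Y : ∀ i, Matrix (Fin (N i)) (Fin (N i)) F) : Matrix (Bas l N) (Bas l N) F :=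
  Matrix.fromBlocks 0 0 0 (Matrix.blockDiagonal' Y)

/-- The projection to a summand. -/
def inc (F : Type) [Field F] (l : ℕ) (N : ι → ℕ) (i : ι) : Matrix (Fin (N i)) (Bas l N) F :=
  Matrix.of fun b z => if z = Sum.inr ⟨i, b⟩ then 1 else 0

theorem inc_mul {n : Type*} (i : ι) (X : Matrix (Bas l N) n F) (b : Fin (N i)) (z : n) :
    (inc F l N i * X) b z = X (Sum.inr ⟨i, b⟩) z := by
  rw [Matrix.mul_apply, Finset.sum_eq_single (Sum.inr ⟨i, b⟩)]
  · simp [inc]
  · intro y _ hy
    simp [inc, hy]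
  · intro h
    exact absurd (Finset.mem_univ _) h

theorem mul_incT {n : Type*} (i : ι) (X : Matrix n (Bas l N) F) (z : n) (b : Fin (N i)) :
    (X * (inc F l N i)ᵀ) z b = X z (Sum.inr ⟨i, b⟩) := by
  rw [Matrix.mul_apply, Finset.sum_eq_single (Sum.inr ⟨i, b⟩)]
  · simp [inc]
  · intro y _ hy
    simp [inc, hy]
  · intro h
    exact absurd (Finset.mem_univ _) h

theorem mul_inc_inl {n : Type*} (i : ι) (X : Matrix n (Fin (N i)) F) (z : n) (t : Fin l) :
    (X * inc F l N i) z (Sum.inl t) = 0 := by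
  rw [Matrix.mul_apply]
  exact Finset.sum_eq_zero fun b _ => by simp [inc]

theorem mul_inc_same {n : Type*} (i : ι) (X : Matrix n (Fin (N i)) F) (z : n) (b : Fin (N i)) :
    (X * inc F l N i) z (Sum.inr ⟨i, b⟩) = X z b := by
  rw [Matrix.mul_apply, Finset.sum_eq_single b]
  · simp [inc]
  · intro y _ hy
    simp [inc, Ne.symm hy]
  · intro h
    exact absurd (Finset.mem_univ _) h

theorem mul_inc_ne {n : Type*} (i : ι) (X : Matrix n (Fin (N i)) F) (z : n)
    (y : Σ i, Fin (N i)) (h : y.1 ≠ i) : (X * inc F l N i) z (Sum.inr y) = 0 := by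
  rw [Matrix.mul_apply]
  refine Finset.sum_eq_zero fun b _ => ?_
  rw [inc, Matrix.of_apply, if_neg, mul_zero]
  intro h1
  exact h (congrArg Sigma.fst (Sum.inr.inj h1))

theorem inc_same (i : ι) : inc F l N i * (inc F l N i)ᵀ = 1 := by
  ext b b'
  rw [inc_mul, Matrix.transpose_apply, inc, Matrix.of_apply, Matrix.one_apply]
  simp

theorem inc_off {i j : ι} (h : i ≠ j) : inc F l N i * (inc F l N j)ᵀ = 0 := by
  ext b b'
  rw [inc_mul, Matrix.transpose_apply, inc, Matrix.of_apply, Matrix.zero_apply, if_neg]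
  intro h1
  exact h (congrArg Sigma.fst (Sum.inr.inj h1))

theorem inc_blocks (i : ι) (A : Matrix (Fin l) (Fin l) F)
    (Y : ∀ i, Matrix (Fin (N i)) (Fin (N i)) F) :
    inc F l N i * Matrix.fromBlocks A 0 0 (Matrix.blockDiagonal' Y) = Y i * inc F l N i := by
  ext b z
  rw [inc_mul]
  rcases z with t | ⟨j, b'⟩
  · rw [mul_inc_inl]
    simp
  · by_cases h : i = j
    · subst h
      rw [mul_inc_same]
      simp
    · rw [mul_inc_ne _ _ _ _ (Ne.symm h), Matrix.fromBlocks_apply₂₂,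
        Matrix.blockDiagonal'_apply_ne _ _ _ h]

theorem blocks_incT (i : ι) (A : Matrix (Fin l) (Fin l) F)
    (Y : ∀ i, Matrix (Fin (N i)) (Fin (N i)) F) :
    Matrix.fromBlocks A 0 0 (Matrix.blockDiagonal' Y) * (inc F l N i)ᵀ =
      (inc F l N i)ᵀ * Y i := by
  have h := congrArg Matrix.transpose (inc_blocks (l := l) i Aᵀ (fun i => (Y i)ᵀ))
  rw [Matrix.transpose_mul, Matrix.transpose_mul, Matrix.fromBlocks_transpose,
    Matrix.blockDiagonal'_transpose] at h
  simpa using h

theorem em_zero : em l (0 : ∀ i, Matrix (Fin (N i)) (Fin (N i)) F) = 0 := by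
  unfold em
  simp

theorem em_add (X Y : ∀ i, Matrix (Fin (N i)) (Fin (N i)) F) :
    em l (X + Y) = em l X + em l Y := by
  unfold em
  rw [Matrix.fromBlocks_add, ← Matrix.blockDiagonal'_add]
  simp

theorem em_smul (a : F) (X : ∀ i, Matrix (Fin (N i)) (Fin (N i)) F) :
    em l (a • X) = a • em l X := by
  unfold em
  rw [Matrix.fromBlocks_smul, ← Matrix.blockDiagonal'_smul]
  simp

theorem em_mul (X Y : ∀ i, Matrix (Fin (N i)) (Fin (N i)) F) :
    em l (fun i => X i * Y i) = em l X * em l Y := by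
  unfold em
  rw [Matrix.fromBlocks_multiply, Matrix.blockDiagonal'_mul]
  simp

theorem em_sub (X Y : ∀ i, Matrix (Fin (N i)) (Fin (N i)) F) :
    em l (X - Y) = em l X - em l Y := by
  rw [sub_eq_add_neg, em_add, ← neg_one_smul F, em_smul, neg_one_smul, ← sub_eq_add_neg]

theorem inc_em (i : ι) (Y : ∀ i, Matrix (Fin (N i)) (Fin (N i)) F) :
    inc F l N i * em l Y = Y i * inc F l N i := inc_blocks i 0 Y

theorem em_incT (i : ι) (Y : ∀ i, Matrix (Fin (N i)) (Fin (N i)) F) :
    em l Y * (inc F l N i)ᵀ = (inc F l N i)ᵀ * Y i := blocks_incT i 0 Y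

/-- The matrix of a class in two factors. -/
def pmat (F : Type) [Field F] (l : ℕ) (N : ι → ℕ) (i j : ι)
    (m : Matrix (Fin (N i)) (Fin (N j)) F) : Matrix (Bas l N) (Bas l N) F :=
  (inc F l N i)ᵀ * m * inc F l N j

theorem pairClass_eq (i j : ι) (m : Matrix (Fin (N i)) (Fin (N j)) F) :
    pairClass l i j m = bilc (pmat F l N i j m) := by
  funext I
  unfold pairClass bilc pmat
  rw [Matrix.mul_apply, Finset.sum_comm]
  refine Finset.sum_congr rfl fun b' _ => ?_
  rw [Matrix.mul_apply, Finset.sum_mul]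
  refine Finset.sum_congr rfl fun b _ => ?_
  rw [Matrix.transpose_apply, inc, inc, Matrix.of_apply, Matrix.of_apply]
  by_cases h1 : I 0 = Sum.inr ⟨i, b⟩
  · by_cases h2 : I 1 = Sum.inr ⟨j, b'⟩
    · rw [if_pos ⟨h1, h2⟩, if_pos h1, if_pos h2, one_mul, mul_one]
    · rw [if_neg (fun h => h2 h.2), if_neg h2, mul_zero]
  · rw [if_neg (fun h => h1 h.1), if_neg h1, zero_mul, zero_mul]

theorem act_pair [CharZero F] (i j : ι) (m : Matrix (Fin (N i)) (Fin (N j)) F)
    (Y : ∀ i, Matrix (Fin (N i)) (Fin (N i)) F) :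
    act (em l Y) (pairClass l i j m) = pairClass l i j ((Y i)ᵀ * m + m * Y j) := by
  rw [pairClass_eq, pairClass_eq]
  funext I
  rw [act_bilc]
  unfold bilc
  congr 1
  unfold pmat
  have h1 : (em l Y)ᵀ * ((inc F l N i)ᵀ * m * inc F l N j) =
      (inc F l N i * em l Y)ᵀ * m * inc F l N j := by
    rw [Matrix.transpose_mul]
    simp only [Matrix.mul_assoc]
  have h2 : (inc F l N i)ᵀ * m * inc F l N j * em l Y =
      (inc F l N i)ᵀ * m * (inc F l N j * em l Y) := by
    simp only [Matrix.mul_assoc]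
  rw [h1, h2, inc_em, inc_em, Matrix.transpose_mul]
  simp only [Matrix.mul_add, Matrix.add_mul, Matrix.mul_assoc]

theorem pmat_inj {i j : ι} {m m' : Matrix (Fin (N i)) (Fin (N j)) F}
    (h : pmat F l N i j m = pmat F l N i j m') : m = m' := by
  have h1 : ∀ m : Matrix (Fin (N i)) (Fin (N j)) F,
      inc F l N i * pmat F l N i j m * (inc F l N j)ᵀ = m := by
    intro m
    unfold pmat
    have h2 : inc F l N i * ((inc F l N i)ᵀ * m * inc F l N j) * (inc F l N j)ᵀ =
        (inc F l N i * (inc F l N i)ᵀ) * m * (inc F l N j * (inc F l N j)ᵀ) := by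
      simp only [Matrix.mul_assoc]
    rw [h2, inc_same, inc_same, Matrix.one_mul, Matrix.mul_one]
  rw [← h1 m, h, h1]

theorem pairClass_inj {i j : ι} {m m' : Matrix (Fin (N i)) (Fin (N j)) F}
    (h : pairClass l i j m = pairClass l i j m') : m = m' := by
  rw [pairClass_eq, pairClass_eq] at h
  refine pmat_inj (l := l) ?_
  ext a b
  exact congrFun h ![a, b]

theorem pairClass_zero (i j : ι) :
    pairClass l i j (0 : Matrix (Fin (N i)) (Fin (N j)) F) = 0 := by
  rw [pairClass_eq]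
  unfold pmat
  rw [Matrix.mul_zero, Matrix.zero_mul]
  rfl

section group

variable {Γ : Type} [Group Γ] {χ : Γ →* Fˣ} {k : ι → ℤ}
  (M : Γ →* Matrix (Fin l) (Fin l) F) (V : ∀ i, SpRep χ (k i) (N i))

theorem grp_one : grp M V 1 = 1 := by
  unfold grp
  rw [map_one]
  have h1 : (fun i => (V i).ρ 1) = fun i => (1 : Matrix (Fin (N i)) (Fin (N i)) F) := by
    funext i
    exact map_one _
  rw [h1]
  have h2 : Matrix.blockDiagonal' (fun i => (1 : Matrix (Fin (N i)) (Fin (N i)) F)) = 1 :=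
    Matrix.blockDiagonal'_one
  rw [h2, Matrix.fromBlocks_one]

theorem grp_mul (g h : Γ) : grp M V (g * h) = grp M V g * grp M V h := by
  unfold grp
  rw [map_mul, Matrix.fromBlocks_multiply, ← Matrix.blockDiagonal'_mul]
  have h1 : (fun i => (V i).ρ (g * h)) = fun i => (V i).ρ g * (V i).ρ h := by
    funext i
    exact map_mul _ _ _
  rw [h1]
  simp

/-- The action on tensors. -/
def ta {κ : Type} [Fintype κ] [DecidableEq κ] (g : Γ) (c : (κ → Bas l N) → F) :
    (κ → Bas l N) → F := pull (grp M V g)ᵀ c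

theorem ta_apply {κ : Type} [Fintype κ] [DecidableEq κ] (g : Γ) (c : (κ → Bas l N) → F)
    (I : κ → Bas l N) :
    ta M V g c I = ∑ J : κ → Bas l N, (∏ j, grp M V g (I j) (J j)) * c J := by
  unfold ta pull
  exact Finset.sum_congr rfl fun J _ => mul_comm _ _

theorem isTate_iff {κ : Type} [Fintype κ] [DecidableEq κ] (c : (κ → Bas l N) → F) :
    IsTateClass M V c ↔ ∃ (n : ℤ) (H : Subgroup Γ), H.FiniteIndex ∧ ∀ g ∈ H,
      ta M V g c = ((χ g ^ n : Fˣ) : F) • c := by
  unfold IsTateClass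
  refine exists_congr fun n => exists_congr fun H => and_congr_right fun _ =>
    forall_congr' fun g => imp_congr_right fun _ => ?_
  rw [funext_iff]
  refine forall_congr' fun I => ?_
  rw [ta_apply, Pi.smul_apply, smul_eq_mul]

theorem ta_mul {κ : Type} [Fintype κ] [DecidableEq κ] (g h : Γ) (c : (κ → Bas l N) → F) :
    ta M V (g * h) c = ta M V g (ta M V h c) := by
  unfold ta
  rw [pull_pull, grp_mul, Matrix.transpose_mul]

theorem ta_one {κ : Type} [Fintype κ] [DecidableEq κ] (c : (κ → Bas l N) → F) :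
    ta M V 1 c = c := by
  unfold ta
  rw [grp_one, Matrix.transpose_one, pull_one]

theorem ta_smul {κ : Type} [Fintype κ] [DecidableEq κ] (g : Γ) (a : F)
    (c : (κ → Bas l N) → F) : ta M V g (a • c) = a • ta M V g c :=
  Pool.Agent.W437.CY.pull_smul _ _ _

theorem ta_add {κ : Type} [Fintype κ] [DecidableEq κ] (g : Γ)
    (c d : (κ → Bas l N) → F) : ta M V g (c + d) = ta M V g c + ta M V g d :=
  Pool.Agent.W437.CY.pull_add _ _ _

/-- The group acts on the Tate classes. -/
theorem isTate_ta {κ : Type} [Fintype κ] [DecidableEq κ] {c : (κ → Bas l N) → F}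
    (hc : IsTateClass M V c) (g : Γ) : IsTateClass M V (ta M V g c) := by
  rw [isTate_iff] at hc ⊢
  obtain ⟨n, H, hH, h⟩ := hc
  refine ⟨n, H.map ((MulAut.conj g : Γ ≃* Γ) : Γ →* Γ), ?_, ?_⟩
  · exact ⟨by
      rw [Subgroup.index_map_equiv H (MulAut.conj g)]
      exact hH.index_ne_zero⟩
  · rintro _ ⟨s, hs, rfl⟩
    have h1 : ((MulAut.conj g : Γ ≃* Γ) : Γ →* Γ) s = g * s * g⁻¹ := rfl
    rw [h1, ← ta_mul, inv_mul_cancel_right, ta_mul, h s hs, ta_smul]
    congr 3
    rw [map_mul, map_mul, map_inv, mul_comm (χ g), mul_inv_cancel_right]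

end group

end Pool.Agent.W437.TA
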