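import Mathlib
import Pool.Agent.W437.TA.Emb

/-!
# The Lie algebra which kills the Tate classes
-/

set_option linter.unusedSectionVars false

namespace Pool.Agent.W437.TA

open Matrix Polynomial Pool.Agent.W437.HC Pool.Agent.W437.HP

variable {F : Type} [Field F] [CharZero F] {ι : Type} [Fintype ι] [DecidableEq ι] {N : ι → ℕ}
  {l : ℕ} {Γ : Type} [Group Γ] {χ : Γ →* Fˣ} {k : ι → ℤ}
  (M : Γ →* Matrix (Fin l) (Fin l) F) (V : ∀ i, SpRep χ (k i) (N i))

/-- The families of matrices which kill all Tate classes. -/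
def hh : Submodule F (∀ i, Matrix (Fin (N i)) (Fin (N i)) F) where
  carrier := {Y | ∀ (κ : Type) [Fintype κ] [DecidableEq κ] (c : (κ → Bas l N) → F),
    IsTateClass M V c → act (em l Y) c = 0}
  zero_mem' := fun κ _ _ c _ => by rw [em_zero, act_zero_left]
  add_mem' := fun {Y Z} hY hZ κ _ _ c hc => by
    rw [em_add, act_add_left, hY κ c hc, hZ κ c hc, add_zero]
  smul_mem' := fun a Y hY κ _ _ c hc => by
    rw [em_smul, act_smul_left, hY κ c hc, smul_zero]

theorem hh_bracket {Y Z : ∀ i, Matrix (Fin (N i)) (Fin (N i)) F} (hY : Y ∈ hh M V)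
    (hZ : Z ∈ hh M V) : (fun i => Y i * Z i - Z i * Y i) ∈ hh M V := by
  intro κ _ _ c hc
  have h1 : (fun i => Y i * Z i - Z i * Y i) =
      (fun i => Y i * Z i) - (fun i => Z i * Y i) := rfl
  rw [h1, em_sub, em_mul, em_mul]
  exact act_bracket (hY κ c hc) (hZ κ c hc)

theorem hh_conj {Y : ∀ i, Matrix (Fin (N i)) (Fin (N i)) F} (hY : Y ∈ hh M V) (g : Γ) :
    (fun i => ((V i).ρ g⁻¹)ᵀ * Y i * ((V i).ρ g)ᵀ) ∈ hh M V := by
  intro κ _ _ c hc
  have h1 : c = pull (grp M V g)ᵀ (ta M V g⁻¹ c) := by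
    change c = ta M V g (ta M V g⁻¹ c)
    rw [← ta_mul, mul_inv_cancel, ta_one]
  have h2 : (grp M V g)ᵀ * em l (fun i => ((V i).ρ g⁻¹)ᵀ * Y i * ((V i).ρ g)ᵀ) =
      em l Y * (grp M V g)ᵀ := by
    unfold grp em
    rw [Matrix.fromBlocks_transpose, Matrix.blockDiagonal'_transpose, Matrix.fromBlocks_multiply,
      Matrix.fromBlocks_multiply, ← Matrix.blockDiagonal'_mul, ← Matrix.blockDiagonal'_mul]
    have h3 : ∀ i, ((V i).ρ g)ᵀ * (((V i).ρ g⁻¹)ᵀ * Y i * ((V i).ρ g)ᵀ) =
        Y i * ((V i).ρ g)ᵀ := by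
      intro i
      rw [← Matrix.mul_assoc, ← Matrix.mul_assoc, ← Matrix.transpose_mul, ← map_mul,
        inv_mul_cancel, map_one, Matrix.transpose_one, Matrix.one_mul]
    simp only [h3]
    simp
  conv_lhs => rw [h1]
  rw [act_pull h2, hY κ _ (isTate_ta M V hc g⁻¹), pull_zero]

/-- The action on a class in two factors. -/
theorem ta_pair (g : Γ) (i j : ι) (m : Matrix (Fin (N i)) (Fin (N j)) F) :
    ta M V g (pairClass l i j m) =
      pairClass l i j ((V i).ρ g * m * ((V j).ρ g)ᵀ) := by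
  unfold ta
  rw [pairClass_eq, pairClass_eq, Pool.Agent.W437.CY.pull_bilc, Matrix.transpose_transpose]
  congr 1
  unfold pmat
  have h1 : grp M V g * (inc F l N i)ᵀ = (inc F l N i)ᵀ * (V i).ρ g := blocks_incT i _ _
  have h2 : (grp M V g * (inc F l N j)ᵀ)ᵀ = ((inc F l N j)ᵀ * (V j).ρ g)ᵀ := by
    congr 1
    exact blocks_incT j _ _
  rw [Matrix.transpose_mul, Matrix.transpose_mul, Matrix.transpose_transpose] at h2
  have h3 : grp M V g * ((inc F l N i)ᵀ * m * inc F l N j) * (grp M V g)ᵀ =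
      (grp M V g * (inc F l N i)ᵀ) * m * (inc F l N j * (grp M V g)ᵀ) := by
    simp only [Matrix.mul_assoc]
  rw [h3, h1, h2]
  simp only [Matrix.mul_assoc]

theorem pairClass_smul (i j : ι) (a : F) (m : Matrix (Fin (N i)) (Fin (N j)) F) :
    pairClass l i j (a • m) = a • pairClass l i j m := by
  rw [pairClass_eq, pairClass_eq]
  unfold pmat
  rw [Matrix.mul_smul, Matrix.smul_mul]
  rfl

theorem tate_pair {i j : ι} {m : Matrix (Fin (N i)) (Fin (N j)) F} {n : ℤ} {H : Subgroup Γ}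
    (hH : H.FiniteIndex)
    (h : ∀ g ∈ H, (V i).ρ g * m * ((V j).ρ g)ᵀ = ((χ g ^ n : Fˣ) : F) • m) :
    IsTateClass M V (pairClass l i j m) := by
  rw [isTate_iff]
  refine ⟨n, H, hH, fun g hg => ?_⟩
  rw [ta_pair, h g hg, pairClass_smul]

theorem hh_pair {i j : ι} {m : Matrix (Fin (N i)) (Fin (N j)) F}
    (hm : IsTateClass M V (pairClass l i j m))
    {Y : ∀ i, Matrix (Fin (N i)) (Fin (N i)) F} (hY : Y ∈ hh M V) :
    (Y i)ᵀ * m + m * Y j = 0 := by
  have h1 := hY _ _ hm
  rw [act_pair] at h1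
  refine pairClass_inj (l := l) (h1.trans ?_)
  rw [pairClass_zero]

theorem tate_E (i : ι) : IsTateClass M V (pairClass l i i (V i).E) :=
  tate_pair M V (n := k i) (H := ⊤) inferInstance fun g _ => (V i).sim g

theorem hh_sp {Y : ∀ i, Matrix (Fin (N i)) (Fin (N i)) F} (hY : Y ∈ hh M V) (i : ι) :
    (Y i)ᵀ * (V i).E + (V i).E * Y i = 0 := hh_pair M V (tate_E M V i) hY

/-- The logarithm of a unipotent element. -/
theorem hh_log {u : Γ} (hχ : χ u = 1) (hM : M u = 1)
    (hV : ∀ j, IsNilpotent ((V j).ρ u - 1)) :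
    ∃ Y ∈ hh M V, ∀ j, (V j).ρ u ≠ 1 → Y j ≠ 0 := by
  have hT : ∀ j, IsNilpotent (((V j).ρ u)ᵀ - 1) := by
    intro j
    obtain ⟨n, hn⟩ := hV j
    refine ⟨n, ?_⟩
    rw [← Matrix.transpose_one, ← Matrix.transpose_sub, ← Matrix.transpose_pow, hn,
      Matrix.transpose_zero]
  choose P hP using fun j => exists_poly _ (hT j)
  refine ⟨fun j => dr (P j), ?_, fun j hj => dr_ne _ (P j) (hP j) ?_⟩
  · intro κ _ _ c hc
    rw [isTate_iff] at hc
    obtain ⟨n, H, hH, h⟩ := hc
    let Q : Matrix (Bas l N) (Bas l N) F[X] :=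
      Matrix.fromBlocks 1 0 0 (Matrix.blockDiagonal' P)
    have hQ : ∀ s : ℕ, evm Q s = (grp M V (u ^ s))ᵀ := by
      intro s
      unfold evm grp
      rw [Matrix.fromBlocks_map, Matrix.fromBlocks_transpose, Matrix.blockDiagonal'_transpose,
        Matrix.blockDiagonal'_map _ _ (by simp)]
      have h1 : (fun i => (P i).map fun p => p.eval (s : F)) =
          fun i => ((V i).ρ (u ^ s))ᵀ := by
        funext i
        rw [map_pow, Matrix.transpose_pow]
        exact hP i s
      rw [h1, map_pow, hM, one_pow, Matrix.transpose_one]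
      congr 1
      · ext a b
        rw [Matrix.map_apply, Matrix.one_apply, Matrix.one_apply]
        split_ifs <;> simp
      · ext a b
        simp
      · ext a b
        simp
    have hD : dr Q = em l fun j => dr (P j) := by
      unfold dr em
      rw [Matrix.fromBlocks_map, Matrix.blockDiagonal'_map _ _ (by simp)]
      congr 1
      · ext a b
        rw [Matrix.map_apply, Matrix.one_apply]
        split_ifs <;> simp
      · ext a b
        simp
      · ext a b
        simp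
    rw [← hD]
    obtain ⟨m, hm0, -, hm⟩ := Subgroup.exists_pow_mem_of_index_ne_zero hH.index_ne_zero u
    refine act_of_poly Q ?_ c (S := Set.range fun t : ℕ => m * t) ?_ ?_
    · have h1 := hQ 0
      rw [Nat.cast_zero, pow_zero, grp_one, Matrix.transpose_one] at h1
      exact h1
    · exact Set.infinite_range_of_injective fun a b hab => Nat.eq_of_mul_eq_mul_left hm0 hab
    · rintro _ ⟨t, rfl⟩
      have h1 : u ^ (m * t) ∈ H := by
        rw [pow_mul]
        exact H.pow_mem hm t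
      have h2 := h _ h1
      rw [map_pow, hχ, one_pow, _root_.one_zpow, Units.val_one, one_smul] at h2
      unfold ta at h2
      rw [← hQ] at h2
      exact h2
  · intro h
    apply hj
    have h1 := congrArg Matrix.transpose h
    rwa [Matrix.transpose_transpose, Matrix.transpose_one] at h1

/-- The Lie algebra maps onto the symplectic Lie algebras of the summands. -/
theorem hh_full {i : ι} (hbig : (V i).IsBig) (hne : ∃ Y ∈ hh M V, Y i ≠ 0)
    {X : Matrix (Fin (N i)) (Fin (N i)) F} (hX : Xᵀ * (V i).E + (V i).E * X = 0) :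
    ∃ Y ∈ hh M V, Y i = X := by
  have h1 := hbig
    { carrier := {X | ∃ Y ∈ hh M V, Y i = Xᵀ}
      zero_mem' := ⟨0, Submodule.zero_mem _, by simp⟩
      add_mem' := by
        rintro X X' ⟨Y, hY, hYX⟩ ⟨Y', hY', hYX'⟩
        exact ⟨Y + Y', Submodule.add_mem _ hY hY', by
          rw [Pi.add_apply, hYX, hYX', Matrix.transpose_add]⟩
      smul_mem' := by
        rintro a X ⟨Y, hY, hYX⟩
        exact ⟨a • Y, Submodule.smul_mem _ _ hY, by
          rw [Pi.smul_apply, hYX, Matrix.transpose_smul]⟩ } ?_ ?_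
  · rcases h1 with h1 | h1
    · exfalso
      obtain ⟨Y, hY, hY0⟩ := hne
      apply hY0
      have h2 : (Y i)ᵀ ∈ (⊥ : Submodule F (Matrix (Fin (N i)) (Fin (N i)) F)) := by
        rw [← h1]
        exact ⟨Y, hY, by rw [Matrix.transpose_transpose]⟩
      rw [Submodule.mem_bot] at h2
      rw [← Matrix.transpose_transpose (Y i), h2, Matrix.transpose_zero]
    · obtain ⟨Y, hY, hYX⟩ := h1 Xᵀ (by rwa [Matrix.transpose_transpose])
      exact ⟨Y, hY, by rw [hYX, Matrix.transpose_transpose]⟩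
  · rintro X ⟨Y, hY, hYX⟩
    have h2 := hh_sp M V hY i
    rwa [hYX, Matrix.transpose_transpose] at h2
  · rintro g X ⟨Y, hY, hYX⟩
    refine ⟨_, hh_conj M V hY g, ?_⟩
    rw [Matrix.transpose_mul, Matrix.transpose_mul, hYX, Matrix.mul_assoc]

end Pool.Agent.W437.TA
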