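import Mathlib
import Pool.Agent.W437.TA.Lie

/-!
# Classes in two factors which are killed by the Lie algebra
-/

set_option linter.unusedSectionVars false

namespace Pool.Agent.W437.TA

open Matrix Pool.Agent.W437.HC Pool.Agent.W437.HP

variable {F : Type} [Field F] [CharZero F] {ι : Type} [Fintype ι] [DecidableEq ι] {N : ι → ℕ}
  {l : ℕ} {Γ : Type} [Group Γ] {χ : Γ →* Fˣ} {k : ι → ℤ}
  (M : Γ →* Matrix (Fin l) (Fin l) F) (V : ∀ i, SpRep χ (k i) (N i))

/-- The class is killed. -/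
def Kill (i j : ι) (m : Matrix (Fin (N i)) (Fin (N j)) F) : Prop :=
  ∀ Y ∈ hh M V, (Y i)ᵀ * m + m * Y j = 0

/-- The Lie algebra maps onto the symplectic Lie algebras of the summands. -/
def Full : Prop := ∀ (i : ι) (X : Matrix (Fin (N i)) (Fin (N i)) F),
  Xᵀ * (V i).E + (V i).E * X = 0 → ∃ Y ∈ hh M V, Y i = X

variable {M V}

theorem Kill.transpose {i j : ι} {m : Matrix (Fin (N i)) (Fin (N j)) F} (h : Kill M V i j m) :
    Kill M V j i mᵀ := by
  intro Y hY
  have h1 := congrArg Matrix.transpose (h Y hY)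
  rw [Matrix.transpose_add, Matrix.transpose_mul, Matrix.transpose_mul,
    Matrix.transpose_transpose, Matrix.transpose_zero, add_comm] at h1
  exact h1

theorem detE (i : ι) : IsUnit (V i).E.det := (Matrix.isUnit_iff_isUnit_det _).1 (V i).unit

theorem E_mul_inv (i : ι) : (V i).E * (V i).E⁻¹ = 1 := Matrix.mul_nonsing_inv _ (detE i)

theorem E_inv_mul (i : ι) : (V i).E⁻¹ * (V i).E = 1 := Matrix.nonsing_inv_mul _ (detE i)

/-- The product of a symmetric matrix and the form is in the Lie algebra. -/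
theorem sym_sp (i : ι) {S : Matrix (Fin (N i)) (Fin (N i)) F} (hS : Sᵀ = S) :
    (S * (V i).E)ᵀ * (V i).E + (V i).E * (S * (V i).E) = 0 := by
  rw [Matrix.transpose_mul, hS, (V i).alt, Matrix.neg_mul, Matrix.neg_mul, Matrix.mul_assoc,
    neg_add_cancel]

variable (hF : Full M V)
include hF

theorem kill_sym {i j : ι} {m : Matrix (Fin (N i)) (Fin (N j)) F} (h : Kill M V i j m)
    {S : Matrix (Fin (N i)) (Fin (N i)) F} (hS : Sᵀ = S) :
    ∃ Z : Matrix (Fin (N j)) (Fin (N j)) F, (V i).E * S * m = m * Z := by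
  obtain ⟨Y, hY, hYS⟩ := hF i _ (sym_sp i hS)
  refine ⟨Y j, ?_⟩
  have h1 := h Y hY
  rw [hYS, Matrix.transpose_mul, hS, (V i).alt, Matrix.neg_mul, Matrix.neg_mul] at h1
  exact (neg_add_eq_zero.1 h1)

/-- A killed class in `V i ⊗ V i` is a multiple of the form. -/
theorem kill_self {i : ι} {P : Matrix (Fin (N i)) (Fin (N i)) F} (h : Kill M V i i P) :
    ∃ c : F, P = c • (V i).E := by
  have key : ∀ S : Matrix (Fin (N i)) (Fin (N i)) F, Sᵀ = S →
      (V i).E⁻¹ * P * S = S * (P * (V i).E⁻¹) := by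
    intro S hS
    obtain ⟨Y, hY, hYS⟩ := hF i _ (sym_sp i hS)
    have h1 := h Y hY
    rw [hYS, Matrix.transpose_mul, hS, (V i).alt, Matrix.neg_mul, Matrix.neg_mul] at h1
    have h2 := neg_add_eq_zero.1 h1
    have h3 := congrArg (fun A => (V i).E⁻¹ * A * (V i).E⁻¹) h2
    have e1 : (V i).E⁻¹ * ((V i).E * S * P) * (V i).E⁻¹ =
        ((V i).E⁻¹ * (V i).E) * S * (P * (V i).E⁻¹) := by simp only [Matrix.mul_assoc]
    have e2 : (V i).E⁻¹ * (P * (S * (V i).E)) * (V i).E⁻¹ =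
        (V i).E⁻¹ * P * S * ((V i).E * (V i).E⁻¹) := by simp only [Matrix.mul_assoc]
    rw [e1, e2, E_inv_mul, E_mul_inv, Matrix.one_mul, Matrix.mul_one] at h3
    exact h3.symm
  obtain ⟨A, hA⟩ : ∃ A, A = (V i).E⁻¹ * P := ⟨_, rfl⟩
  obtain ⟨A', hA'⟩ : ∃ A', A' = P * (V i).E⁻¹ := ⟨_, rfl⟩
  rw [← hA, ← hA'] at key
  have k1 : ∀ a b, (A * (Matrix.single a b (1 : F) + Matrix.single b a (1 : F))) =
      (Matrix.single a b (1 : F) + Matrix.single b a (1 : F)) * A' := by
    intro a b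
    refine key _ ?_
    rw [Matrix.transpose_add, Matrix.transpose_single, Matrix.transpose_single, add_comm]
  have e1 : ∀ a b p q, (A * (Matrix.single a b (1 : F) + Matrix.single b a (1 : F))) p q =
      (if b = q then A p a else 0) + (if a = q then A p b else 0) := by
    intro a b p q
    rw [Matrix.mul_add, Matrix.add_apply]
    congr 1
    · by_cases h : b = q
      · subst h
        rw [Matrix.mul_single_apply_same, if_pos rfl, mul_one]
      · rw [if_neg h, Matrix.mul_single_apply_of_ne _ _ _ _ _ (Ne.symm h)]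
    · by_cases h : a = q
      · subst h
        rw [Matrix.mul_single_apply_same, if_pos rfl, mul_one]
      · rw [if_neg h, Matrix.mul_single_apply_of_ne _ _ _ _ _ (Ne.symm h)]
  have e2 : ∀ a b p q, ((Matrix.single a b (1 : F) + Matrix.single b a (1 : F)) * A') p q =
      (if a = p then A' b q else 0) + (if b = p then A' a q else 0) := by
    intro a b p q
    rw [Matrix.add_mul, Matrix.add_apply]
    congr 1
    · by_cases h : a = p
      · subst h
        rw [Matrix.single_mul_apply_same, if_pos rfl, one_mul]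
      · rw [if_neg h, Matrix.single_mul_apply_of_ne _ _ _ _ _ (Ne.symm h)]
    · by_cases h : b = p
      · subst h
        rw [Matrix.single_mul_apply_same, if_pos rfl, one_mul]
      · rw [if_neg h, Matrix.single_mul_apply_of_ne _ _ _ _ _ (Ne.symm h)]
  have k2 : ∀ a b p q, (if b = q then A p a else 0) + (if a = q then A p b else 0) =
      (if a = p then A' b q else 0) + (if b = p then A' a q else 0) := by
    intro a b p q
    rw [← e1, ← e2, k1]
  have k3 : ∀ a p, p ≠ a → A p a = 0 := by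
    intro a p hp
    have h1 := k2 a a p a
    rw [if_pos rfl, if_neg (Ne.symm hp), ← two_mul, add_zero] at h1
    exact (mul_eq_zero.1 h1).resolve_left two_ne_zero
  have k4 : ∀ a, A a a = A' a a := by
    intro a
    have h1 := k2 a a a a
    rw [if_pos rfl, if_pos rfl, ← two_mul, ← two_mul] at h1
    exact mul_left_cancel₀ two_ne_zero h1
  have k5 : ∀ a b, A a a = A b b := by
    intro a b
    by_cases hab : a = b
    · rw [hab]
    · have h1 := k2 a b a b
      rw [if_pos rfl, if_neg hab, if_pos rfl, if_neg (Ne.symm hab), add_zero, add_zero] at h1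
      rw [h1, k4]
  rcases isEmpty_or_nonempty (Fin (N i)) with hN | ⟨⟨a⟩⟩
  · exact ⟨0, Subsingleton.elim _ _⟩
  · refine ⟨A a a, ?_⟩
    have h1 : A = A a a • (1 : Matrix (Fin (N i)) (Fin (N i)) F) := by
      ext p q
      rw [Matrix.smul_apply, Matrix.one_apply, smul_eq_mul]
      split_ifs with h
      · rw [h, mul_one, k5]
      · rw [k3 q p h, mul_zero]
    have h2 : P = (V i).E * A := by
      rw [hA, ← Matrix.mul_assoc, E_mul_inv, Matrix.one_mul]
    rw [h2]
    conv_lhs => rw [h1]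
    rw [Matrix.mul_smul, Matrix.mul_one]

/-- The composition of two killed classes. -/
theorem kill_comp {i j : ι} {m m' : Matrix (Fin (N i)) (Fin (N j)) F} (h : Kill M V i j m)
    (h' : Kill M V i j m') : ∃ c : F, m * (V j).E⁻¹ * m'ᵀ = c • (V i).E := by
  refine kill_self hF fun Y hY => ?_
  have h1 := h Y hY
  have h2 := h'.transpose Y hY
  have h3 := hh_sp M V hY j
  have h4 : (V j).E⁻¹ * (Y j)ᵀ = -(Y j * (V j).E⁻¹) := by
    have h5 := congrArg (fun A => (V j).E⁻¹ * A * (V j).E⁻¹) h3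
    simp only [Matrix.mul_add, Matrix.add_mul, Matrix.mul_zero, Matrix.zero_mul] at h5
    have e1 : (V j).E⁻¹ * ((Y j)ᵀ * (V j).E) * (V j).E⁻¹ =
        (V j).E⁻¹ * (Y j)ᵀ * ((V j).E * (V j).E⁻¹) := by simp only [Matrix.mul_assoc]
    have e2 : (V j).E⁻¹ * ((V j).E * Y j) * (V j).E⁻¹ =
        ((V j).E⁻¹ * (V j).E) * (Y j * (V j).E⁻¹) := by simp only [Matrix.mul_assoc]
    rw [e1, e2, E_mul_inv, E_inv_mul, Matrix.mul_one, Matrix.one_mul] at h5
    exact eq_neg_of_add_eq_zero_left h5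
  have e1 : (Y i)ᵀ * (m * (V j).E⁻¹ * m'ᵀ) = ((Y i)ᵀ * m) * (V j).E⁻¹ * m'ᵀ := by
    simp only [Matrix.mul_assoc]
  have e2 : m * (V j).E⁻¹ * m'ᵀ * Y i = m * (V j).E⁻¹ * (m'ᵀ * Y i) := by
    simp only [Matrix.mul_assoc]
  rw [e1, e2, eq_neg_of_add_eq_zero_left h1, eq_neg_of_add_eq_zero_right h2]
  have e3 : m * (V j).E⁻¹ * -((Y j)ᵀ * m'ᵀ) = -(m * ((V j).E⁻¹ * (Y j)ᵀ) * m'ᵀ) := by
    simp only [Matrix.mul_neg, Matrix.mul_assoc]
  have e4 : -(m * Y j) * (V j).E⁻¹ * m'ᵀ = -(m * (Y j * (V j).E⁻¹) * m'ᵀ) := by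
    simp only [Matrix.neg_mul, Matrix.mul_assoc]
  rw [e3, e4, h4]
  simp only [Matrix.mul_neg, Matrix.neg_mul, neg_neg]
  exact neg_add_cancel _

omit hF [CharZero F] in
theorem vecMul_single_mul {p q : ℕ} (y : Fin p → F) (m : Matrix (Fin p) (Fin q) F)
    (a b : Fin p) (c : Fin q) : (y ᵥ* (Matrix.single a b (1 : F) * m)) c = y a * m b c := by
  change ∑ d, y d * (Matrix.single a b (1 : F) * m) d c = _
  rw [Finset.sum_eq_single a]
  · rw [Matrix.single_mul_apply_same, one_mul]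
  · intro d _ hd
    rw [Matrix.single_mul_apply_of_ne _ _ _ _ _ hd, mul_zero]
  · intro h
    exact absurd (Finset.mem_univ _) h

/-- A nonzero killed class is nondegenerate. -/
theorem kill_inj {i j : ι} {m : Matrix (Fin (N i)) (Fin (N j)) F} (h : Kill M V i j m)
    (hm : m ≠ 0) {x : Fin (N i) → F} (hx : x ᵥ* m = 0) : x = 0 := by
  by_contra hx0
  obtain ⟨y, hy⟩ : ∃ y, y = x ᵥ* (V i).E := ⟨_, rfl⟩
  have hy0 : y ≠ 0 := by
    intro h0
    apply hx0
    have h1 : x = y ᵥ* (V i).E⁻¹ := by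
      rw [hy, Matrix.vecMul_vecMul, E_mul_inv, Matrix.vecMul_one]
    rw [h1, h0, Matrix.zero_vecMul]
  have key : ∀ S : Matrix (Fin (N i)) (Fin (N i)) F, Sᵀ = S → y ᵥ* (S * m) = 0 := by
    intro S hS
    obtain ⟨Z, hZ⟩ := kill_sym hF h hS
    rw [hy, Matrix.vecMul_vecMul, ← Matrix.mul_assoc, hZ, ← Matrix.vecMul_vecMul, hx,
      Matrix.zero_vecMul]
  have e1 : ∀ a b q, (y ᵥ* ((Matrix.single a b (1 : F) + Matrix.single b a (1 : F)) * m)) q =
      y a * m b q + y b * m a q := by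
    intro a b q
    rw [Matrix.add_mul, Matrix.vecMul_add, Pi.add_apply, vecMul_single_mul,
      vecMul_single_mul]
  have k1 : ∀ a b q, y a * m b q + y b * m a q = 0 := by
    intro a b q
    rw [← e1, key _ (by
      rw [Matrix.transpose_add, Matrix.transpose_single, Matrix.transpose_single, add_comm])]
    rfl
  obtain ⟨a, ha⟩ := Function.ne_iff.1 hy0
  have k2 : ∀ q, m a q = 0 := by
    intro q
    have h1 := k1 a a q
    rw [← two_mul] at h1
    exact (mul_eq_zero.1 ((mul_eq_zero.1 h1).resolve_left two_ne_zero)).resolve_left ha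
  apply hm
  ext b q
  have h1 := k1 a b q
  rw [k2, mul_zero, add_zero] at h1
  exact (mul_eq_zero.1 h1).resolve_left ha

theorem kill_ne {i j : ι} {m : Matrix (Fin (N i)) (Fin (N j)) F} (h : Kill M V i j m)
    (hm : m ≠ 0) : mᵀ * (V i).E⁻¹ * m ≠ 0 := by
  intro h0
  apply hm
  ext p q
  have h1 : ((V i).E⁻¹ *ᵥ (m *ᵥ Pi.single q 1)) ᵥ* m = 0 := by
    rw [← Matrix.mulVec_transpose, Matrix.mulVec_mulVec, Matrix.mulVec_mulVec, h0,
      Matrix.zero_mulVec]
  have h2 := kill_inj hF h hm h1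
  have h3 : m *ᵥ Pi.single q 1 = 0 := by
    have h4 : m *ᵥ Pi.single q 1 = (V i).E *ᵥ ((V i).E⁻¹ *ᵥ (m *ᵥ Pi.single q 1)) := by
      rw [Matrix.mulVec_mulVec, E_mul_inv, Matrix.one_mulVec]
    rw [h4, h2, Matrix.mulVec_zero]
  have h4 := congrFun h3 p
  rwa [Matrix.mulVec_single_one] at h4

/-- Killed classes are proportional. -/
theorem kill_unique {i j : ι} {m m' : Matrix (Fin (N i)) (Fin (N j)) F} (h : Kill M V i j m)
    (hm : m ≠ 0) (h' : Kill M V i j m') : ∃ c : F, m' = c • m := by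
  obtain ⟨c', hc'⟩ := kill_comp hF h.transpose h.transpose
  rw [Matrix.transpose_transpose] at hc'
  obtain ⟨c, hc⟩ := kill_comp hF h h'
  have hc0 : c' ≠ 0 := by
    intro h0
    rw [h0, zero_smul] at hc'
    exact kill_ne hF h hm hc'
  have h1 : (mᵀ * (V i).E⁻¹ * m) * (V j).E⁻¹ * m'ᵀ =
      mᵀ * (V i).E⁻¹ * (m * (V j).E⁻¹ * m'ᵀ) := by simp only [Matrix.mul_assoc]
  rw [hc, hc', Matrix.smul_mul, Matrix.smul_mul, E_mul_inv, Matrix.one_mul, Matrix.mul_smul,
    Matrix.mul_assoc, E_inv_mul, Matrix.mul_one] at h1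
  refine ⟨c'⁻¹ * c, ?_⟩
  have h2 := congrArg Matrix.transpose h1
  rw [Matrix.transpose_smul, Matrix.transpose_smul, Matrix.transpose_transpose,
    Matrix.transpose_transpose] at h2
  rw [mul_smul, ← h2, smul_smul, inv_mul_cancel₀ hc0, one_smul]

end Pool.Agent.W437.TA
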