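import Mathlib
import Pool.Agent.W437.TA.Kil

/-!
# Killed classes in two factors are Tate classes
-/

set_option linter.unusedSectionVars false

namespace Pool.Agent.W437.TA

open Matrix Pool.Agent.W437.HC Pool.Agent.W437.HP

variable {F : Type} [Field F] [CharZero F] {ι : Type} [Fintype ι] [DecidableEq ι] {N : ι → ℕ}
  {l : ℕ} {Γ : Type} [Group Γ] {χ : Γ →* Fˣ} {k : ι → ℤ}
  {M : Γ →* Matrix (Fin l) (Fin l) F} {V : ∀ i, SpRep χ (k i) (N i)}

theorem kill_conj {i j : ι} {m : Matrix (Fin (N i)) (Fin (N j)) F} (h : Kill M V i j m) (g : Γ) :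
    Kill M V i j ((V i).ρ g * m * ((V j).ρ g)ᵀ) := by
  intro Y hY
  have h1 := h _ (hh_conj M V hY g⁻¹)
  simp only [inv_inv] at h1
  have h2 := congrArg (fun A => (V i).ρ g * A * ((V j).ρ g)ᵀ) h1
  simp only [Matrix.mul_add, Matrix.add_mul, Matrix.mul_zero, Matrix.zero_mul] at h2
  have e0 : ∀ i, (V i).ρ g * (V i).ρ g⁻¹ = 1 := fun i => by
    rw [← map_mul, mul_inv_cancel, map_one]
  have e1 : (V i).ρ g * ((((V i).ρ g)ᵀ * Y i * ((V i).ρ g⁻¹)ᵀ)ᵀ * m) * ((V j).ρ g)ᵀ =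
      (Y i)ᵀ * ((V i).ρ g * m * ((V j).ρ g)ᵀ) := by
    rw [Matrix.transpose_mul, Matrix.transpose_mul, Matrix.transpose_transpose,
      Matrix.transpose_transpose]
    have e2 : (V i).ρ g * ((V i).ρ g⁻¹ * ((Y i)ᵀ * (V i).ρ g) * m) * ((V j).ρ g)ᵀ =
        ((V i).ρ g * (V i).ρ g⁻¹) * ((Y i)ᵀ * ((V i).ρ g * m * ((V j).ρ g)ᵀ)) := by
      simp only [Matrix.mul_assoc]
    rw [e2, e0, Matrix.one_mul]
  have e3 : (V i).ρ g * (m * (((V j).ρ g)ᵀ * Y j * ((V j).ρ g⁻¹)ᵀ)) * ((V j).ρ g)ᵀ =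
      (V i).ρ g * m * ((V j).ρ g)ᵀ * Y j := by
    have e2 : (V i).ρ g * (m * (((V j).ρ g)ᵀ * Y j * ((V j).ρ g⁻¹)ᵀ)) * ((V j).ρ g)ᵀ =
        (V i).ρ g * m * ((V j).ρ g)ᵀ * Y j * (((V j).ρ g⁻¹)ᵀ * ((V j).ρ g)ᵀ) := by
      simp only [Matrix.mul_assoc]
    rw [e2, ← Matrix.transpose_mul, e0, Matrix.transpose_one, Matrix.mul_one]
  rw [e1, e3] at h2
  exact h2

theorem sim_inv (i : ι) (g : Γ) : ((V i).ρ g)ᵀ * (V i).E⁻¹ * (V i).ρ g =
    ((χ g ^ k i : Fˣ) : F) • (V i).E⁻¹ := by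
  obtain ⟨a, ha⟩ : ∃ a : F, a = ((χ g ^ k i : Fˣ) : F) := ⟨_, rfl⟩
  have ha0 : a ≠ 0 := by
    rw [ha]
    exact Units.ne_zero _
  rw [← ha]
  have h1 := (V i).sim g
  rw [← ha] at h1
  have h2 : (a⁻¹ • ((V i).E⁻¹ * (V i).ρ g * (V i).E)) * ((V i).ρ g)ᵀ = 1 := by
    rw [Matrix.smul_mul]
    have e1 : (V i).E⁻¹ * (V i).ρ g * (V i).E * ((V i).ρ g)ᵀ =
        (V i).E⁻¹ * ((V i).ρ g * (V i).E * ((V i).ρ g)ᵀ) := by simp only [Matrix.mul_assoc]
    rw [e1, h1, Matrix.mul_smul, E_inv_mul, smul_smul, inv_mul_cancel₀ ha0, one_smul]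
  have h3 := mul_eq_one_comm.1 h2
  have h4 := congrArg (fun A => a • (A * (V i).E⁻¹)) h3
  simp only [Matrix.one_mul] at h4
  rw [← h4, Matrix.mul_smul, Matrix.smul_mul, smul_smul, mul_inv_cancel₀ ha0, one_smul]
  have e1 : ((V i).ρ g)ᵀ * ((V i).E⁻¹ * (V i).ρ g * (V i).E) * (V i).E⁻¹ =
      ((V i).ρ g)ᵀ * (V i).E⁻¹ * (V i).ρ g * ((V i).E * (V i).E⁻¹) := by
    simp only [Matrix.mul_assoc]
  rw [e1, E_mul_inv, Matrix.mul_one]

variable (hF : Full M V)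
include hF

theorem kill_tate {i j : ι} {m : Matrix (Fin (N i)) (Fin (N j)) F} (h : Kill M V i j m)
    (hm : m ≠ 0) {n : ℤ} (hn : 2 * n = k i + k j) :
    ∃ H : Subgroup Γ, H.FiniteIndex ∧ ∀ g ∈ H,
      (V i).ρ g * m * ((V j).ρ g)ᵀ = ((χ g ^ n : Fˣ) : F) • m := by
  choose ψ hψ using fun g => kill_unique hF h hm (kill_conj h g)
  have hinj : ∀ a b : F, a • m = b • m → a = b := fun a b hab => smul_left_injective F hm hab
  have hψ1 : ψ 1 = 1 := by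
    refine hinj _ _ ?_
    rw [← hψ, map_one, map_one, Matrix.transpose_one, Matrix.one_mul, Matrix.mul_one, one_smul]
  have hψm : ∀ g g', ψ (g * g') = ψ g * ψ g' := by
    intro g g'
    refine hinj _ _ ?_
    rw [← hψ, map_mul, map_mul, Matrix.transpose_mul]
    have e1 : (V i).ρ g * (V i).ρ g' * m * (((V j).ρ g')ᵀ * ((V j).ρ g)ᵀ) =
        (V i).ρ g * ((V i).ρ g' * m * ((V j).ρ g')ᵀ) * ((V j).ρ g)ᵀ := by
      simp only [Matrix.mul_assoc]
    rw [e1, hψ g', Matrix.mul_smul, Matrix.smul_mul, hψ g, smul_smul, mul_comm]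
  obtain ⟨c, hc⟩ := kill_comp hF h h
  have hcE : c • (V i).E ≠ 0 := by
    rw [← hc]
    have h1 := kill_ne hF h.transpose (fun h0 => hm (by
      rw [← Matrix.transpose_transpose m, h0, Matrix.transpose_zero]))
    rwa [Matrix.transpose_transpose] at h1
  have hsq : ∀ g, ψ g * ψ g = ((χ g ^ (2 * n) : Fˣ) : F) := by
    intro g
    have h1 : ((V i).ρ g * m * ((V j).ρ g)ᵀ) * (V j).E⁻¹ *
        ((V i).ρ g * m * ((V j).ρ g)ᵀ)ᵀ = (ψ g * ψ g) • (c • (V i).E) := by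
      rw [hψ g, Matrix.transpose_smul, Matrix.smul_mul, Matrix.smul_mul, Matrix.mul_smul, hc,
        smul_smul]
    have h2 : ((V i).ρ g * m * ((V j).ρ g)ᵀ) * (V j).E⁻¹ *
        ((V i).ρ g * m * ((V j).ρ g)ᵀ)ᵀ =
        (V i).ρ g * (m * (((V j).ρ g)ᵀ * (V j).E⁻¹ * (V j).ρ g) * mᵀ) * ((V i).ρ g)ᵀ := by
      rw [Matrix.transpose_mul, Matrix.transpose_mul, Matrix.transpose_transpose]
      simp only [Matrix.mul_assoc]
    rw [h1, sim_inv, Matrix.mul_smul, Matrix.smul_mul, hc, Matrix.mul_smul, Matrix.smul_mul,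
      Matrix.mul_smul, Matrix.smul_mul, (V i).sim, smul_comm c, smul_smul] at h2
    have h3 : ψ g * ψ g = ((χ g ^ k j : Fˣ) : F) * ((χ g ^ k i : Fˣ) : F) :=
      smul_left_injective F hcE (by simpa only [smul_smul, mul_assoc] using h2)
    rw [h3, hn, add_comm (k i), _root_.zpow_add, Units.val_mul]
  let f : Γ →* F :=
    { toFun := fun g => ψ g * ((χ g ^ (-n) : Fˣ) : F)
      map_one' := by rw [hψ1, map_one, _root_.one_zpow, Units.val_one, one_mul]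
      map_mul' := fun g g' => by
        rw [hψm, map_mul, mul_zpow, Units.val_mul]
        ring }
  have hf : ∀ g, f g = ψ g * ((χ g ^ (-n) : Fˣ) : F) := fun _ => rfl
  have hf2 : ∀ g, f g * f g = 1 := by
    intro g
    have h1 : f g * f g = (ψ g * ψ g) * ((χ g ^ (-n) * χ g ^ (-n) : Fˣ) : F) := by
      rw [hf, Units.val_mul]
      ring
    rw [h1, hsq, ← Units.val_mul, ← _root_.zpow_add, ← _root_.zpow_add]
    have h2 : 2 * n + (-n + -n) = 0 := by ring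
    rw [h2, zpow_zero, Units.val_one]
  let f' : Γ →* Fˣ := f.toHomUnits
  have hf' : ∀ g, (f' g : F) = f g := fun g => rfl
  have hfin : Finite f'.range := by
    have h1 : (f'.range : Set Fˣ) ⊆ (rootsOfUnity 2 F : Set Fˣ) := by
      rintro _ ⟨g, rfl⟩
      rw [SetLike.mem_coe, mem_rootsOfUnity, sq]
      ext
      rw [Units.val_mul, hf', hf2, Units.val_one]
    have h3 : Finite (rootsOfUnity 2 F) := inferInstance
    have h2 : ((rootsOfUnity 2 F : Subgroup Fˣ) : Set Fˣ).Finite := Set.toFinite _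
    exact (h2.subset h1).to_subtype
  refine ⟨f'.ker, inferInstance, fun g hg => ?_⟩
  rw [hψ]
  congr 1
  have h1 : f g = 1 := by
    rw [← hf', MonoidHom.mem_ker.1 hg, Units.val_one]
  rw [hf] at h1
  have h2 : ((χ g ^ (-n) : Fˣ) : F) * ((χ g ^ n : Fˣ) : F) = 1 := by
    rw [← Units.val_mul, ← _root_.zpow_add, neg_add_cancel, zpow_zero, Units.val_one]
  calc ψ g = ψ g * (((χ g ^ (-n) : Fˣ) : F) * ((χ g ^ n : Fˣ) : F)) := by rw [h2, mul_one]
    _ = (ψ g * ((χ g ^ (-n) : Fˣ) : F)) * ((χ g ^ n : Fˣ) : F) := by ring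
    _ = _ := by rw [h1, one_mul]

/-- A subgroup which works for all killed classes. -/
theorem exists_H : ∃ H : Subgroup Γ, H.FiniteIndex ∧ ∀ (i j : ι)
    (m : Matrix (Fin (N i)) (Fin (N j)) F) (n : ℤ), Kill M V i j m → 2 * n = k i + k j →
      ∀ g ∈ H, (V i).ρ g * m * ((V j).ρ g)ᵀ = ((χ g ^ n : Fˣ) : F) • m := by
  have h1 : ∀ p : ι × ι, ∃ H : Subgroup Γ, H.FiniteIndex ∧ ∀
      (m : Matrix (Fin (N p.1)) (Fin (N p.2)) F) (n : ℤ), Kill M V p.1 p.2 m →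
      2 * n = k p.1 + k p.2 →
      ∀ g ∈ H, (V p.1).ρ g * m * ((V p.2).ρ g)ᵀ = ((χ g ^ n : Fˣ) : F) • m := by
    rintro ⟨i, j⟩
    by_cases h : ∃ (m : Matrix (Fin (N i)) (Fin (N j)) F) (n : ℤ), Kill M V i j m ∧ m ≠ 0 ∧
        2 * n = k i + k j
    · obtain ⟨m, n, hm, hm0, hn⟩ := h
      obtain ⟨H, hH, h⟩ := kill_tate hF hm hm0 hn
      refine ⟨H, hH, fun m' n' hm' hn' g hg => ?_⟩
      obtain ⟨c, rfl⟩ := kill_unique hF hm hm0 hm'
      have hnn : n' = n := by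
        simp only at hn'
        omega
      rw [hnn, Matrix.mul_smul, Matrix.smul_mul, h g hg, smul_comm]
    · push Not at h
      refine ⟨⊤, inferInstance, fun m' n' hm' hn' g _ => ?_⟩
      by_cases hm0 : m' = 0
      · rw [hm0, Matrix.mul_zero, Matrix.zero_mul, smul_zero]
      · exact absurd hn' (h m' n' hm' hm0)
  choose H hH h using h1
  refine ⟨⨅ p, H p, Subgroup.finiteIndex_iInf hH, fun i j m n hm hn g hg => ?_⟩
  exact h (i, j) m n hm hn g (Subgroup.mem_iInf.1 hg (i, j))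

end Pool.Agent.W437.TA
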