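import Mathlib
import Pool.Agent.W437.TA.Twist
import Pool.Agent.W437.TA.Fft

/-!
# Tensors on the symplectic summands which are killed by the Lie algebra
-/

set_option linter.unusedSectionVars false

namespace Pool.Agent.W437.TA

open Matrix Pool.Agent.W437.HC Pool.Agent.W437.HP

variable {F : Type} [Field F] [CharZero F] {ι : Type} [Fintype ι] [DecidableEq ι] {N : ι → ℕ}
  {l : ℕ} {Γ : Type} [Group Γ] {χ : Γ →* Fˣ} {k : ι → ℤ}
  {M : Γ →* Matrix (Fin l) (Fin l) F} {V : ∀ i, SpRep χ (k i) (N i)}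

/-- The form on a summand. -/
noncomputable def wf (V : ∀ i, SpRep χ (k i) (N i)) (i : ι) :
    (Fin (N i) → F) →ₗ[F] (Fin (N i) → F) →ₗ[F] F :=
  LinearMap.mk₂ F (fun x y => x ⬝ᵥ ((V i).E *ᵥ y))
    (fun x x' y => add_dotProduct _ _ _)
    (fun a x y => smul_dotProduct _ _ _)
    (fun x y y' => by rw [mulVec_add, dotProduct_add])
    (fun a x y => by rw [mulVec_smul, dotProduct_smul])

theorem wf_apply (i : ι) (x y : Fin (N i) → F) : wf V i x y = x ⬝ᵥ ((V i).E *ᵥ y) := rfl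

/-- The bracket. -/
def brh (M : Γ →* Matrix (Fin l) (Fin l) F) (V : ∀ i, SpRep χ (k i) (N i))
    (Y Z : hh M V) : hh M V :=
  ⟨fun i => Y.1 i * Z.1 i - Z.1 i * Y.1 i, hh_bracket M V Y.2 Z.2⟩

/-- The system of spaces. -/
noncomputable def sysT (hF : Full M V) : Sys F (hh M V) (brh M V) (fun i => Fin (N i) → F) where
  w := wf V
  ρ i :=
    { toFun := fun Y => Matrix.mulVecLin (Y.1 i)
      map_add' := fun Y Z => LinearMap.ext fun x => by
        change (Y.1 i + Z.1 i) *ᵥ x = Y.1 i *ᵥ x + Z.1 i *ᵥ x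
        exact add_mulVec _ _ _
      map_smul' := fun a Y => LinearMap.ext fun x => by
        change (a • Y.1 i) *ᵥ x = a • (Y.1 i *ᵥ x)
        exact smul_mulVec _ _ _ }
  alt i x := by
    rw [wf_apply]
    have h1 : x ⬝ᵥ ((V i).E *ᵥ x) = -(x ⬝ᵥ ((V i).E *ᵥ x)) := by
      conv_lhs => rw [dotProduct_comm, ← Matrix.transpose_transpose (V i).E, mulVec_transpose,
        ← dotProduct_mulVec, (V i).alt, neg_mulVec, dotProduct_neg]
    have h2 : (2 : F) * (x ⬝ᵥ ((V i).E *ᵥ x)) = 0 := by linear_combination h1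
    exact (mul_eq_zero.1 h2).resolve_left two_ne_zero
  nd i x hx := by
    have h1 : x ᵥ* (V i).E = 0 := by
      funext b
      have h2 := hx (Pi.single b 1)
      rw [wf_apply, dotProduct_mulVec, dotProduct_single_one] at h2
      exact h2
    rw [← Matrix.vecMul_one x, ← E_mul_inv (V := V) i, ← Matrix.vecMul_vecMul, h1,
      Matrix.zero_vecMul]
  brk i Y Z := LinearMap.ext fun x => by
    change (Y.1 i * Z.1 i - Z.1 i * Y.1 i) *ᵥ x =
      Y.1 i *ᵥ (Z.1 i *ᵥ x) - Z.1 i *ᵥ (Y.1 i *ᵥ x)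
    rw [sub_mulVec, mulVec_mulVec, mulVec_mulVec]
  sp i Y x y := by
    change wf V i (Y.1 i *ᵥ x) y = -wf V i x (Y.1 i *ᵥ y)
    rw [wf_apply, wf_apply]
    have h1 := hh_sp M V Y.2 i
    have h2 : (Y.1 i *ᵥ x) ⬝ᵥ ((V i).E *ᵥ y) = x ⬝ᵥ (((Y.1 i)ᵀ * (V i).E) *ᵥ y) := by
      rw [← mulVec_mulVec, dotProduct_mulVec x, vecMul_transpose]
    rw [h2, eq_neg_of_add_eq_zero_left h1, neg_mulVec, dotProduct_neg, mulVec_mulVec]
  full i x y := by
    have hS : (Matrix.vecMulVec x y + Matrix.vecMulVec y x)ᵀ =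
        Matrix.vecMulVec x y + Matrix.vecMulVec y x := by
      rw [Matrix.transpose_add, Matrix.transpose_vecMulVec, Matrix.transpose_vecMulVec, add_comm]
    obtain ⟨Y, hY, hYS⟩ := hF i _ (sym_sp i hS)
    refine ⟨⟨Y, hY⟩, LinearMap.ext fun z => ?_⟩
    change Y i *ᵥ z = _
    rw [hYS, EE_apply, wf_apply, wf_apply, ← mulVec_mulVec, add_mulVec, vecMulVec_mulVec,
      vecMulVec_mulVec, op_smul_eq_smul, op_smul_eq_smul]

/-- The inclusion of a summand. -/
def incl (F : Type) [Field F] (l : ℕ) (N : ι → ℕ) (i : ι) :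
    (Fin (N i) → F) →ₗ[F] (Bas l N → F) := Matrix.mulVecLin (inc F l N i)ᵀ

/-- The projection to a summand. -/
def prjl (F : Type) [Field F] (l : ℕ) (N : ι → ℕ) (i : ι) :
    (Bas l N → F) →ₗ[F] (Fin (N i) → F) := Matrix.mulVecLin (inc F l N i)

theorem prjl_single (i : ι) (z : Bas l N) (b : Fin (N i)) :
    prjl F l N i (Pi.single z 1) b = if z = Sum.inr ⟨i, b⟩ then 1 else 0 := by
  change (inc F l N i *ᵥ Pi.single z 1) b = _
  rw [mulVec_single_one]
  rfl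

theorem prjl_zero (i : ι) (z : Bas l N) (h : ¬∃ b, z = Sum.inr ⟨i, b⟩) :
    prjl F l N i (Pi.single z 1) = 0 := by
  funext b
  rw [prjl_single, if_neg (fun h1 => h ⟨b, h1⟩)]
  rfl

theorem incl_prjl (i : ι) (b : Fin (N i)) :
    (Pi.single (Sum.inr ⟨i, b⟩) 1 : Bas l N → F) =
      incl F l N i (prjl F l N i (Pi.single (Sum.inr ⟨i, b⟩) 1)) := by
  have h1 : (Pi.single (Sum.inr ⟨i, b⟩) 1 : Bas l N → F) =
      (inc F l N i)ᵀ *ᵥ (Pi.single b 1 : Fin (N i) → F) := by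
    rw [mulVec_single_one]
    funext z
    change (Pi.single (Sum.inr ⟨i, b⟩) 1 : Bas l N → F) z = inc F l N i b z
    rw [Pi.single_apply]
    rfl
  change _ = (inc F l N i)ᵀ *ᵥ (inc F l N i *ᵥ Pi.single (Sum.inr ⟨i, b⟩) 1)
  conv_rhs => rw [h1, mulVec_mulVec, mulVec_mulVec, Matrix.mul_assoc, inc_same, Matrix.mul_one]
  exact h1

theorem pairClass_apply (i j : ι) (m : Matrix (Fin (N i)) (Fin (N j)) F) (I : Fin 2 → Bas l N) :
    pairClass l i j m I =
      prjl F l N i (Pi.single (I 0) 1) ⬝ᵥ (m *ᵥ prjl F l N j (Pi.single (I 1) 1)) := by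
  rw [pairClass_eq]
  unfold bilc pmat
  change _ = (inc F l N i *ᵥ Pi.single (I 0) 1) ⬝ᵥ (m *ᵥ (inc F l N j *ᵥ Pi.single (I 1) 1))
  have h1 : (inc F l N i *ᵥ (Pi.single (I 0) 1 : Bas l N → F)) ⬝ᵥ
      (m *ᵥ (inc F l N j *ᵥ Pi.single (I 1) 1)) =
      (Pi.single (I 0) 1 : Bas l N → F) ⬝ᵥ
        (((inc F l N i)ᵀ * m * inc F l N j) *ᵥ Pi.single (I 1) 1) := by
    rw [← mulVec_mulVec, ← mulVec_mulVec, dotProduct_mulVec (Pi.single (I 0) (1 : F)),
      vecMul_transpose]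
  rw [h1, single_one_dotProduct, mulVec_single_one]
  rfl

/-- The products of killed classes in two factors over a matching. -/
def GenT (M : Γ →* Matrix (Fin l) (Fin l) F) (V : ∀ i, SpRep χ (k i) (N i)) {m : ℕ}
    (τ : Fin m × Fin 2 → ι) : Set ((Fin m × Fin 2 → Bas l N) → F) :=
  {G | ∃ (e : Equiv.Perm (Fin m × Fin 2))
    (mm : ∀ t : Fin m, Matrix (Fin (N (τ (e (t, 0))))) (Fin (N (τ (e (t, 1))))) F),
    (∀ t, Kill M V _ _ (mm t)) ∧
    G = fun I => ∏ t, pairClass l _ _ (mm t) ![I (e (t, 0)), I (e (t, 1))]}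

section

variable (hF : Full M V) [∀ i, NeZero (N i)]
include hF

theorem hinc (i : ι) (X : hh M V) (u : Fin (N i) → F) :
    em l X.1 *ᵥ incl F l N i u = incl F l N i ((sysT hF).ρ i X u) := by
  change em l X.1 *ᵥ ((inc F l N i)ᵀ *ᵥ u) = (inc F l N i)ᵀ *ᵥ (X.1 i *ᵥ u)
  rw [mulVec_mulVec, em_incT, mulVec_mulVec]

theorem htype {κ : Type} (τ : κ → ι) (c : (κ → Bas l N) → F)
    (hτ : ∀ I, c I ≠ 0 → ∀ j, ∃ b, I j = Sum.inr ⟨τ j, b⟩) (I : κ → Bas l N) :
    (∀ j, (Pi.single (I j) 1 : Bas l N → F) =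
      incl F l N (τ j) (prjl F l N (τ j) (Pi.single (I j) 1))) ∨
    (c I = 0 ∧ ∃ j, prjl F l N (τ j) (Pi.single (I j) 1) = 0) := by
  by_cases h : ∀ j, ∃ b, I j = Sum.inr ⟨τ j, b⟩
  · left
    intro j
    obtain ⟨b, hb⟩ := h j
    rw [hb]
    exact incl_prjl _ _
  · right
    refine ⟨by_contra fun h1 => h (hτ I h1), ?_⟩
    push Not at h
    obtain ⟨j, hj⟩ := h
    exact ⟨j, prjl_zero _ _ fun ⟨b, hb⟩ => hj b hb⟩

theorem gen_mem {m : ℕ} (τ : Fin m × Fin 2 → ι) (c : (Fin m × Fin 2 → Bas l N) → F)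
    (hτ : ∀ I, c I ≠ 0 → ∀ j, ∃ b, I j = Sum.inr ⟨τ j, b⟩)
    (hc : ∀ Y ∈ hh M V, act (em l Y) c = 0) : c ∈ Submodule.span F (GenT M V τ) := by
  have hc' : ∀ X : hh M V, act (em l X.1) c = 0 := fun X => hc X.1 X.2
  have h1 := fft_sys (Mo := hh M V) (br := brh M V) (N := fun i => Fin (N i) → F)
    (sysT hF) (fun X : hh M V => em l X.1) (incl F l N) (prjl F l N)
    (fun i X u => hinc hF i X u) τ c (htype hF τ c hτ) hc'
  refine Submodule.span_mono ?_ h1
  rintro _ ⟨e, β, hβ, rfl⟩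
  have hm : ∀ t u v, β t u v =
      u ⬝ᵥ (Matrix.of (fun p q => β t (Pi.single p 1) (Pi.single q 1)) *ᵥ v) := by
    intro t u v
    have e1 : ∀ {n : ℕ} (z : Fin n → F), z = ∑ i, z i • (Pi.single i 1 : Fin n → F) := by
      intro n z
      funext j
      rw [Finset.sum_apply, Finset.sum_eq_single j]
      · simp
      · intro b _ hb
        rw [Pi.smul_apply, Pi.single_eq_of_ne (Ne.symm hb), smul_zero]
      · intro h
        exact absurd (Finset.mem_univ _) h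
    conv_lhs => rw [e1 u, e1 v]
    rw [LinearMap.map_sum₂]
    unfold dotProduct mulVec dotProduct
    refine Finset.sum_congr rfl fun p _ => ?_
    rw [map_smul, LinearMap.smul_apply, map_sum, smul_eq_mul]
    congr 1
    refine Finset.sum_congr rfl fun q _ => ?_
    rw [map_smul, smul_eq_mul, mul_comm]
    rfl
  refine ⟨e, fun t => Matrix.of fun p q => β t (Pi.single p 1) (Pi.single q 1), ?_, ?_⟩
  · intro t Y hY
    obtain ⟨G, hG⟩ : ∃ G, G =
      Matrix.of (fun p q => β t (Pi.single p (1 : F)) (Pi.single q (1 : F))) := ⟨_, rfl⟩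
    have hm' : ∀ u v, β t u v = u ⬝ᵥ (G *ᵥ v) := by
      intro u v
      rw [hm, hG]
    beta_reduce
    rw [← hG]
    ext p q
    have h2 := hβ t ⟨Y, hY⟩ (Pi.single p 1) (Pi.single q 1)
    have h3 : β t (Y (τ (e (t, 0))) *ᵥ Pi.single p 1) (Pi.single q 1) +
        β t (Pi.single p 1) (Y (τ (e (t, 1))) *ᵥ Pi.single q 1) = 0 := h2
    rw [hm', hm', mulVec_mulVec, single_one_dotProduct, mulVec_single_one, mulVec_single_one,
      mulVec_single_one] at h3
    rw [Matrix.add_apply, Matrix.zero_apply, ← h3]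
    rfl
  · funext I
    refine Finset.prod_congr rfl fun t _ => ?_
    rw [pairClass_apply, hm]
    rfl

end

end Pool.Agent.W437.TA
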