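import Mathlib
import Pool.Agent.W437.TA.Slice

/-!
# Slices of Tate classes
-/

set_option linter.unusedSectionVars false

namespace Pool.Agent.W437.TA

open Matrix Pool.Agent.W437.HC Pool.Agent.W437.HP

/-- A function of two variables whose sections are in two given subspaces is a sum of
products. -/
theorem exists_tensor {F : Type*} [Field F] {X Y : Type*} [Fintype X] [DecidableEq X]
    [Fintype Y] [DecidableEq Y]
    (U : Submodule F (X → F)) (H : Submodule F (Y → F)) (c : X → Y → F) (hH : ∀ x, c x ∈ H)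
    (hU : ∀ y, (fun x => c x y) ∈ U) :
    ∃ (n : ℕ) (u : Fin n → X → F) (h : Fin n → Y → F), (∀ i, u i ∈ U) ∧ (∀ i, h i ∈ H) ∧
      ∀ x y, c x y = ∑ i, u i x * h i y := by
  obtain ⟨b, -⟩ : ∃ b : Module.Basis (Fin (Module.finrank F H)) F H, b = b :=
    ⟨Module.finBasis F H, rfl⟩
  have hext : ∀ i, ∃ g : (Y → F) →ₗ[F] F, g ∘ₗ H.subtype = b.coord i := fun i =>
    LinearMap.exists_extend _
  choose g hg using hext
  refine ⟨_, fun i x => g i (c x), fun i => b i, fun i => ?_, fun i => (b i).2, fun x y => ?_⟩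
  · have h1 : (fun x => g i (c x)) =
        ∑ y, g i (fun j => if y = j then 1 else 0) • fun x => c x y := by
      funext x
      rw [Finset.sum_apply, LinearMap.pi_apply_eq_sum_univ (g i) (c x)]
      refine Finset.sum_congr rfl fun y _ => ?_
      rw [Pi.smul_apply, smul_eq_mul, smul_eq_mul, mul_comm]
    change (fun x => g i (c x)) ∈ U
    rw [h1]
    exact Submodule.sum_mem _ fun y _ => Submodule.smul_mem _ _ (hU y)
  · have h1 := b.sum_repr ⟨c x, hH x⟩
    have h2 := congrFun (congrArg Subtype.val h1) y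
    have h3 : ∀ i, g i (c x) = b.repr ⟨c x, hH x⟩ i := by
      intro i
      have h4 := LinearMap.congr_fun (hg i) ⟨c x, hH x⟩
      exact h4
    simp only [h3]
    refine h2.symm.trans ?_
    rw [AddSubmonoidClass.coe_finsetSum, Finset.sum_apply]
    rfl

variable {F : Type} [Field F] [CharZero F] {ι : Type} [Fintype ι] [DecidableEq ι] {N : ι → ℕ}
  {l : ℕ} {Γ : Type} [Group Γ] {χ : Γ →* Fˣ} {k : ι → ℤ}
  {M : Γ →* Matrix (Fin l) (Fin l) F} {V : ∀ i, SpRep χ (k i) (N i)}
  {A : ∀ κ : Type, Submodule F ((κ → Bas l N) → F)}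

theorem prod_zpow_sum {G : Type*} [CommGroup G] {T : Type*} (s : Finset T) (a : G)
    (n : T → ℤ) : ∏ t ∈ s, a ^ n t = a ^ ∑ t ∈ s, n t := by
  classical
  induction s using Finset.induction_on with
  | empty => simp
  | insert t s ht ih => rw [Finset.prod_insert ht, Finset.sum_insert ht, ih, _root_.zpow_add]

theorem one_mem (hA : IsSystem M V A) : (fun _ : Empty → Bas l N => (1 : F)) ∈ A Empty := by
  refine hA.low Empty _ ⟨0, ⊤, inferInstance, fun g _ I => ?_⟩ fun I ⟨j, _⟩ => j.elim
  rw [Fintype.sum_unique]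
  simp

/-- Products of families of classes. -/
theorem prod_mem (hA : IsSystem M V A) (κ0 : Type) [Finite κ0] (Λ : Type) [Fintype Λ] :
    ∀ a : Λ → (κ0 → Bas l N) → F, (∀ s, a s ∈ A κ0) →
      (fun I : Λ × κ0 → Bas l N => ∏ s, a s (fun ε => I (s, ε))) ∈ A (Λ × κ0) := by
  refine Fintype.induction_empty_option (P := fun Λ _ =>
    ∀ a : Λ → (κ0 → Bas l N) → F, (∀ s, a s ∈ A κ0) →
      (fun I : Λ × κ0 → Bas l N => ∏ s, a s (fun ε => I (s, ε))) ∈ A (Λ × κ0)) ?_ ?_ ?_ Λ
  · intro α β _ e ih a ha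
    let _ : Fintype α := Fintype.ofEquiv β e.symm
    have h1 := ih (fun s => a (e s)) (fun s => ha _)
    have h2 := hA.perm _ _ (Equiv.prodCongr e (Equiv.refl κ0)) _ h1
    convert h2 using 1
    funext I
    rw [← Equiv.prod_comp e (fun s => a s (fun ε => I (s, ε)))]
    exact Fintype.prod_equiv (Equiv.refl α) _ _ (fun s => rfl)
  · intro a ha
    have e : Empty ≃ PEmpty × κ0 := Equiv.equivOfIsEmpty _ _
    have h2 := hA.perm _ _ e _ (one_mem hA)
    convert h2 using 1
    funext I
    exact Fintype.prod_empty _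
  · intro α _ ih a ha
    have h1 := ih (fun s => a (some s)) (fun s => ha _)
    have h2 := hA.mul _ _ _ _ (ha none) h1
    let e : κ0 ⊕ (α × κ0) ≃ Option α × κ0 :=
      { toFun := Sum.elim (fun ε => (none, ε)) (fun p => (some p.1, p.2))
        invFun := fun p => match p with
          | (none, ε) => Sum.inl ε
          | (some s, ε) => Sum.inr (s, ε)
        left_inv := by
          rintro (ε | ⟨s, ε⟩) <;> rfl
        right_inv := by
          rintro ⟨_ | s, ε⟩ <;> rfl }
    have h3 := hA.perm _ _ e _ h2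
    convert h3 using 1
    funext I
    rw [Fintype.prod_option]
    rfl

/-- The tensors of given types which are killed by the Lie algebra. -/
def HH (M : Γ →* Matrix (Fin l) (Fin l) F) (V : ∀ i, SpRep χ (k i) (N i)) {κ : Type} [Fintype κ]
    [DecidableEq κ] (τ : κ → ι) : Submodule F ((κ → Bas l N) → F) where
  carrier := {c | (∀ I, c I ≠ 0 → ∀ j, ∃ b, I j = Sum.inr ⟨τ j, b⟩) ∧
    ∀ Y ∈ hh M V, act (em l Y) c = 0}
  zero_mem' := ⟨fun I h => absurd rfl h, fun Y _ => act_zero_right _⟩
  add_mem' := by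
    rintro c d ⟨h1, h2⟩ ⟨h3, h4⟩
    refine ⟨fun I hI => ?_, fun Y hY => by rw [act_add_right, h2 Y hY, h4 Y hY, add_zero]⟩
    by_cases h : c I = 0
    · refine h3 I fun h5 => hI ?_
      rw [Pi.add_apply, h, h5, add_zero]
    · exact h1 I h
  smul_mem' := by
    rintro a c ⟨h1, h2⟩
    refine ⟨fun I hI => h1 I fun h5 => hI ?_, fun Y hY => by
      rw [act_smul_right, h2 Y hY, smul_zero]⟩
    rw [Pi.smul_apply, h5, smul_zero]

section

variable (hF : Full M V) (hk : ∀ i, Odd (k i)) [∀ i, NeZero (N i)] {H : Subgroup Γ}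
  (hH : ∀ (i j : ι) (m : Matrix (Fin (N i)) (Fin (N j)) F) (n : ℤ), Kill M V i j m →
    2 * n = k i + k j → ∀ g ∈ H, (V i).ρ g * m * ((V j).ρ g)ᵀ = ((χ g ^ n : Fˣ) : F) • m)
  (hA : IsSystem M V A)

/-- A killed class in two factors belongs to the system. -/
theorem pair_mem (hF : Full M V) (hk : ∀ i, Odd (k i)) {H : Subgroup Γ} (hfi : H.FiniteIndex)
    (hH : ∀ (i j : ι) (m : Matrix (Fin (N i)) (Fin (N j)) F) (n : ℤ), Kill M V i j m →
      2 * n = k i + k j → ∀ g ∈ H, (V i).ρ g * m * ((V j).ρ g)ᵀ = ((χ g ^ n : Fˣ) : F) • m)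
    (hA : IsSystem M V A) {i j : ι} {m : Matrix (Fin (N i)) (Fin (N j)) F}
    (hm : Kill M V i j m) : pairClass l i j m ∈ A (Fin 2) := by
  by_cases hij : i = j
  · subst hij
    obtain ⟨c, rfl⟩ := kill_self hF hm
    rw [pairClass_smul]
    exact Submodule.smul_mem _ _ (hA.diag i)
  · obtain ⟨n, hn⟩ := (hk i).add_odd (hk j)
    exact hA.cross i j hij m (tate_pair M V (n := n) hfi
      (hH i j m n hm (by rw [hn]; ring)))

/-- The killed tensors on the symplectic summands are Tate classes and belong to the system. -/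
theorem slice (hfi : H.FiniteIndex) (hF : Full M V) (hk : ∀ i, Odd (k i))
    (hH : ∀ (i j : ι) (m : Matrix (Fin (N i)) (Fin (N j)) F) (n : ℤ), Kill M V i j m →
      2 * n = k i + k j → ∀ g ∈ H, (V i).ρ g * m * ((V j).ρ g)ᵀ = ((χ g ^ n : Fˣ) : F) • m)
    (hA : IsSystem M V A) {κ : Type} [Fintype κ] [DecidableEq κ] (τ : κ → ι)
    {c : (κ → Bas l N) → F} (hc : c ∈ HH M V τ) :
    (∀ g ∈ H, ta M V g c = ((χ g ^ ((∑ j, k (τ j)) / 2) : Fˣ) : F) • c) ∧ c ∈ A κ := by
  obtain ⟨hτ, hc⟩ := hc
  rcases Nat.even_or_odd (Fintype.card κ) with hev | hodd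
  · obtain ⟨m, hm⟩ := hev
    let e : Fin m × Fin 2 ≃ κ := Fintype.equivOfCardEq (by
      rw [Fintype.card_prod, Fintype.card_fin, Fintype.card_fin, hm]
      omega)
    obtain ⟨c', hc'⟩ : ∃ c' : (Fin m × Fin 2 → Bas l N) → F,
        c' = fun J => c (fun s => J (e.symm s)) := ⟨_, rfl⟩
    have hcc : c = fun I => c' (fun s => I (e s)) := by
      funext I
      rw [hc']
      simp
    have h1 : ∀ Y ∈ hh M V, act (em l Y) c' = 0 := by
      intro Y hY
      have h2 := act_reindex e (em l Y) c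
      rw [hc Y hY] at h2
      rw [hc']
      exact h2
    have h2 : ∀ I, c' I ≠ 0 → ∀ j, ∃ b, I j = Sum.inr ⟨τ (e j), b⟩ := by
      intro I hI j
      rw [hc'] at hI
      obtain ⟨b, hb⟩ := hτ _ hI (e j)
      rw [Equiv.symm_apply_apply] at hb
      exact ⟨b, hb⟩
    have h3 := gen_mem hF (fun j => τ (e j)) c' h2 h1
    have h4 : (∀ g ∈ H, ta M V g c' =
        ((χ g ^ ((∑ j, k (τ (e j))) / 2) : Fˣ) : F) • c') ∧ c' ∈ A (Fin m × Fin 2) := by
      clear h1 h2 hc'
      clear hcc
      induction h3 using Submodule.span_induction with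
      | mem G hG =>
        obtain ⟨e', mm, hmm, rfl⟩ := hG
        refine ⟨fun g hg => ?_, ?_⟩
        · have hn : ∀ t, ∃ n, 2 * n = k (τ (e (e' (t, 0)))) + k (τ (e (e' (t, 1)))) := by
            intro t
            obtain ⟨n, hn⟩ := (hk (τ (e (e' (t, 0))))).add_odd (hk (τ (e (e' (t, 1)))))
            exact ⟨n, by rw [hn]; ring⟩
          choose n hn using hn
          have h5 : (∑ j, k (τ (e j))) / 2 = ∑ t, n t := by
            have h6 : ∑ j, k (τ (e j)) = 2 * ∑ t, n t := by
              rw [← Equiv.sum_comp e' (fun j => k (τ (e j))), Fintype.sum_prod_type,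
                Finset.mul_sum]
              refine Finset.sum_congr rfl fun t _ => ?_
              rw [Fin.sum_univ_two, hn]
            omega
          rw [h5]
          funext I
          unfold ta
          rw [Pool.Agent.W437.CY.pull_prod, Pi.smul_apply, smul_eq_mul]
          have h6 : ∀ t, pull (grp M V g)ᵀ (pairClass l _ _ (mm t))
              ![I (e' (t, 0)), I (e' (t, 1))] = ((χ g ^ n t : Fˣ) : F) *
              pairClass l _ _ (mm t) ![I (e' (t, 0)), I (e' (t, 1))] := by
            intro t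
            have h7 := ta_pair M V g _ _ (mm t)
            rw [hH _ _ (mm t) (n t) (hmm t) (hn t) g hg, pairClass_smul] at h7
            exact congrFun h7 _
          rw [Finset.prod_congr rfl fun t _ => h6 t, Finset.prod_mul_distrib]
          congr 1
          rw [← Units.coe_prod, prod_zpow_sum]
        · have h5 := prod_mem hA (Fin 2) (Fin m) (fun t => pairClass l _ _ (mm t))
            (fun t => pair_mem hF hk hfi hH hA (hmm t))
          have h6 := hA.perm _ _ e' _ h5
          convert h6 using 1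
          funext I
          refine Finset.prod_congr rfl fun t _ => ?_
          congr 1
          funext ε
          fin_cases ε <;> rfl
      | zero => exact ⟨fun g _ => by rw [smul_zero]; exact pull_zero _, Submodule.zero_mem _⟩
      | add a b _ _ h1 h2 =>
        refine ⟨fun g hg => ?_, Submodule.add_mem _ h1.2 h2.2⟩
        rw [ta_add, h1.1 g hg, h2.1 g hg, smul_add]
      | smul a b _ h1 =>
        refine ⟨fun g hg => ?_, Submodule.smul_mem _ _ h1.2⟩
        rw [ta_smul, h1.1 g hg, smul_comm]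
    refine ⟨fun g hg => ?_, ?_⟩
    · have h5 := h4.1 g hg
      rw [Equiv.sum_comp e (fun j => k (τ j))] at h5
      rw [hcc]
      funext I
      unfold ta at h5 ⊢
      rw [Pool.Agent.W437.CY.pull_reindex, h5]
      rfl
    · rw [hcc]
      exact hA.perm _ _ e _ h4.2
  · have h1 : c = 0 := odd_sys (Mo := hh M V) (br := brh M V) (N := fun i => Fin (N i) → F)
      (sysT hF) (fun X : hh M V => em l X.1) (incl F l N) (prjl F l N)
      (fun i X u => hinc hF i X u) hodd τ c (htype hF τ c hτ) (fun X => hc X.1 X.2)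
    rw [h1]
    refine ⟨fun g _ => ?_, Submodule.zero_mem _⟩
    rw [smul_zero]
    exact pull_zero _

end

end Pool.Agent.W437.TA
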